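import Pool.Agent.Helper970.TN.Defs



namespace TN970
open scoped Classical


theorem hom_power {Γ : Type} [Group Γ] (φ : Γ →* Multiplicative ℤ) (hφ : φ ≠ 1) :
    ∃ (χ : Γ →* Multiplicative ℤ) (k : ℤ), Function.Surjective χ ∧ φ = χ ^ k := by
  let ψ : Additive Γ →+ ℤ := MonoidHom.toAdditiveLeft φ
  have hψ : ∀ g : Γ, Multiplicative.ofAdd (ψ (Additive.ofMul g)) = φ g := fun g => rfl
  obtain ⟨d, hd⟩ := Int.subgroup_cyclic (ψ.range)
  have hmem : ∀ g : Γ, ψ (Additive.ofMul g) ∈ AddSubgroup.closure ({d} : Set ℤ) := by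
    intro g; rw [← hd]; exact ⟨_, rfl⟩
  have hdvd : ∀ g : Γ, d ∣ ψ (Additive.ofMul g) := by
    intro g
    obtain ⟨n, hn⟩ := AddSubgroup.mem_closure_singleton.mp (hmem g)
    exact ⟨n, by rw [← hn]; simp [mul_comm]⟩
  have hd0 : d ≠ 0 := by
    intro h0
    apply hφ
    ext g
    have h1 := hdvd g
    rw [h0, zero_dvd_iff] at h1
    have h2 := hψ g
    rw [h1] at h2
    rw [← h2]; rfl
  let χ : Γ →* Multiplicative ℤ :=
    { toFun := fun g => Multiplicative.ofAdd (ψ (Additive.ofMul g) / d)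
      map_one' := by
        have : ψ (Additive.ofMul (1 : Γ)) = 0 := by
          rw [ofMul_one]; exact map_zero ψ
        rw [this]; simp
      map_mul' := by
        intro g h
        rw [← ofAdd_add]
        congr 1
        rw [ofMul_mul, map_add, Int.add_ediv_of_dvd_left (hdvd g)] }
  refine ⟨χ, d, ?_, ?_⟩
  · intro z
    have hz : d * Multiplicative.toAdd z ∈ AddSubgroup.closure ({d} : Set ℤ) := by
      rw [AddSubgroup.mem_closure_singleton]
      exact ⟨Multiplicative.toAdd z, by simp [mul_comm]⟩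
    rw [← hd] at hz
    obtain ⟨g, hg⟩ := hz
    refine ⟨Additive.toMul g, ?_⟩
    change Multiplicative.ofAdd (ψ g / d) = z
    rw [hg, Int.mul_ediv_cancel_left _ hd0]
    rfl
  · ext g
    have : (χ ^ d) g = (χ g) ^ d := rfl
    rw [this]
    change φ g = (Multiplicative.ofAdd (ψ (Additive.ofMul g) / d)) ^ d
    rw [← ofAdd_zsmul, smul_eq_mul, Int.mul_ediv_cancel' (hdvd g)]
    rfl

end TN970
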