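import Pool.Agent.Helper970.TN.Defs
import Pool.Agent.Helper970.TN.P_hom_power



namespace TN970
open scoped Classical


theorem eb_zpow_apply {Γ : Type} [Group Γ] (φ : Γ →* Multiplicative ℤ) (k : ℤ) (g : Γ) :
    (φ ^ k) g = (φ g) ^ k := by
  cases k with
  | ofNat n => simp
  | negSucc n => simp

theorem eb_toAdd {Γ : Type} [Group Γ] (φ : Γ →* Multiplicative ℤ) (k : ℤ) (g : Γ) :
    Multiplicative.toAdd ((φ ^ k) g) = k * Multiplicative.toAdd (φ g) := by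
  rw [eb_zpow_apply, toAdd_zpow, smul_eq_mul]

theorem eb_dvd {Γ : Type} [Group Γ] {φ χ : Γ →* Multiplicative ℤ} (hφ : Function.Surjective φ)
    {k l : ℤ} (h : φ ^ k = χ ^ l) : l ∣ k := by
  obtain ⟨g, hg⟩ := hφ (Multiplicative.ofAdd 1)
  have h1 : Multiplicative.toAdd ((φ ^ k) g) = Multiplicative.toAdd ((χ ^ l) g) := by rw [h]
  rw [eb_toAdd, eb_toAdd, hg, toAdd_ofAdd, mul_one] at h1
  exact ⟨_, h1⟩

theorem eb_key {Γ : Type} [Group Γ] {φ χ : Γ →* Multiplicative ℤ} (hφ : Function.Surjective φ)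
    (hχ : Function.Surjective χ) {k l : ℤ} (hk : k ≠ 0) (h : φ ^ k = χ ^ l) :
    k.natAbs = l.natAbs ∧ φ.ker = χ.ker := by
  have h1 : l ∣ k := eb_dvd hφ h
  have h2 : k ∣ l := eb_dvd hχ h.symm
  have h3 : k.natAbs = l.natAbs := Nat.dvd_antisymm (Int.natAbs_dvd_natAbs.mpr h2)
    (Int.natAbs_dvd_natAbs.mpr h1)
  have hl : l ≠ 0 := by
    rintro rfl
    exact hk (zero_dvd_iff.mp h1)
  refine ⟨h3, ?_⟩
  ext g
  rw [MonoidHom.mem_ker, MonoidHom.mem_ker]
  have h4 : Multiplicative.toAdd ((φ ^ k) g) = Multiplicative.toAdd ((χ ^ l) g) := by rw [h]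
  rw [eb_toAdd, eb_toAdd] at h4
  constructor
  · intro h5
    rw [h5, toAdd_one, mul_zero] at h4
    have h6 : Multiplicative.toAdd (χ g) = 0 := by
      rcases mul_eq_zero.mp h4.symm with h | h
      · exact absurd h hl
      · exact h
    exact Multiplicative.toAdd.injective (by rw [h6, toAdd_one])
  · intro h5
    rw [h5, toAdd_one, mul_zero] at h4
    have h6 : Multiplicative.toAdd (φ g) = 0 := by
      rcases mul_eq_zero.mp h4 with h | h
      · exact absurd h hk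
      · exact h
    exact Multiplicative.toAdd.injective (by rw [h6, toAdd_one])

theorem exists_beta {Γ : Type} [Group Γ] (f : Subgroup Γ → ℕ) :
    ∃ β : (Γ →* Multiplicative ℤ) → ℕ, β 1 = 0 ∧
      ∀ φ : Γ →* Multiplicative ℤ, Function.Surjective φ → ∀ k : ℤ,
        β (φ ^ k) = k.natAbs * f φ.ker := by
  have hc : ∀ φ : Γ →* Multiplicative ℤ, ∃ n : ℕ, (φ = 1 → n = 0) ∧
      (φ ≠ 1 → ∃ (χ : Γ →* Multiplicative ℤ) (k : ℤ), Function.Surjective χ ∧ φ = χ ^ k ∧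
        n = k.natAbs * f χ.ker) := by
    intro φ
    by_cases h : φ = 1
    · exact ⟨0, fun _ => rfl, fun h' => absurd h h'⟩
    · obtain ⟨χ, k, h1, h2⟩ := hom_power φ h
      exact ⟨k.natAbs * f χ.ker, fun h' => absurd h' h, fun _ => ⟨χ, k, h1, h2, rfl⟩⟩
  choose β hβ1 hβ2 using hc
  refine ⟨β, hβ1 1 rfl, ?_⟩
  intro φ hφ k
  by_cases hk : k = 0
  · subst hk
    rw [zpow_zero, hβ1 1 rfl]
    simp
  · have hne : φ ^ k ≠ 1 := by
      intro h1
      have h2 : φ ^ k = φ ^ (0 : ℤ) := by rw [h1, zpow_zero]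
      exact hk (zero_dvd_iff.mp (eb_dvd hφ h2))
    obtain ⟨χ, l, h1, h2, h3⟩ := hβ2 (φ ^ k) hne
    obtain ⟨h4, h5⟩ := eb_key hφ h1 hk h2
    rw [h3, h4, h5]

end TN970
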