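import Pool.Agent.Helper970.TN.Defs



namespace TN970
open scoped Classical

theorem coord_aux {K : Type} [DivisionRing K] {b : ℕ} (n : ℕ) :
    ∀ V : Submodule K (Fin b → K), Module.finrank K V ≤ n →
      ∃ I : Finset (Fin b), I.card ≤ n ∧ ∀ v ∈ V, (∀ i ∈ I, v i = 0) → v = 0 := by
  induction n with
  | zero =>
    intro V hV
    have h0 : Module.finrank K V = 0 := by omega
    have h1 : V = ⊥ := Submodule.finrank_eq_zero.mp h0
    refine ⟨∅, by simp, fun v hv _ => ?_⟩
    rw [h1] at hv
    exact (Submodule.mem_bot K).mp hv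
  | succ n ih =>
    intro V hV
    by_cases hbot : V = ⊥
    · refine ⟨∅, by simp, fun v hv _ => ?_⟩
      rw [hbot] at hv
      exact (Submodule.mem_bot K).mp hv
    · obtain ⟨v, hv, hv0⟩ := Submodule.exists_mem_ne_zero_of_ne_bot hbot
      obtain ⟨j, hj⟩ := Function.ne_iff.mp hv0
      have hj' : v j ≠ 0 := hj
      let V' : Submodule K (Fin b → K) := V ⊓ LinearMap.ker (LinearMap.proj (R := K) (φ := fun _ => K) j)
      have hlt : V' < V := by
        refine lt_of_le_of_ne inf_le_left ?_
        intro h
        have h2 : v ∈ V' := by rw [h]; exact hv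
        have h3 : v j = 0 := by
          have := (Submodule.mem_inf.mp h2).2
          simpa using this
        exact hj' h3
      have hfr : Module.finrank K V' < Module.finrank K V := Submodule.finrank_lt_finrank_of_lt hlt
      obtain ⟨I, hI, hI2⟩ := ih V' (by omega)
      refine ⟨insert j I, (Finset.card_insert_le _ _).trans (by omega), fun w hw hwI => ?_⟩
      apply hI2 w
      · refine Submodule.mem_inf.mpr ⟨hw, ?_⟩
        have : w j = 0 := hwI j (Finset.mem_insert_self _ _)
        simpa using this
      · intro i hi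
        exact hwI i (Finset.mem_insert_of_mem hi)

theorem coord {K : Type} [DivisionRing K] {b : ℕ} (V : Submodule K (Fin b → K)) :
    ∃ I : Finset (Fin b), I.card = Module.finrank K V ∧
      ∀ v ∈ V, (∀ i ∈ I, v i = 0) → v = 0 := by
  obtain ⟨I, hI, hI2⟩ := coord_aux (Module.finrank K V) V le_rfl
  have hb : Module.finrank K V ≤ Fintype.card (Fin b) := by
    have h1 := Submodule.finrank_le V
    have h2 : Module.finrank K (Fin b → K) = Fintype.card (Fin b) := Module.finrank_fintype_fun_eq_card K
    omega
  obtain ⟨J, hJ, hJ2⟩ := Finset.exists_superset_card_eq hI hb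
  exact ⟨J, hJ2, fun v hv hvJ => hI2 v hv (fun i hi => hvJ i (hJ hi))⟩

end TN970
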