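import Pool.Agent.Helper970.TN.Defs
import Pool.Agent.Helper970.TN.P_conj_Dc
import Pool.Agent.Helper970.TN.P_coord



namespace TN970
open scoped Classical


theorem fh_smul {D : Type} [DivisionRing D] (F : Subfield D) (x : F) (y : D) :
    x • y = (x : D) * y := rfl

/-- span of the powers of `t` in `[-T, T]`. -/
def fhP {Γ : Type} [Group Γ] {D : Type} [DivisionRing D] (u : Γ →* Dˣ) (N : Subgroup Γ)
    (t : Γ) (T : ℕ) : Submodule (Dc u N) D :=
  Submodule.span (Dc u N) (Set.range fun j : Fin (2 * T + 1) => ((u (t ^ ((j : ℤ) - T)) : Dˣ) : D))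

theorem fhP_mem {Γ : Type} [Group Γ] {D : Type} [DivisionRing D] (u : Γ →* Dˣ) (N : Subgroup Γ)
    (t : Γ) (T : ℕ) (j : ℤ) (h : |j| ≤ T) : ((u (t ^ j) : Dˣ) : D) ∈ fhP u N t T := by
  rw [abs_le] at h
  refine Submodule.subset_span ⟨⟨(j + T).toNat, by omega⟩, ?_⟩
  have h1 : (((j + T).toNat : ℕ) : ℤ) - T = j := by omega
  simp only [h1]

theorem fhP_mono {Γ : Type} [Group Γ] {D : Type} [DivisionRing D] (u : Γ →* Dˣ) (N : Subgroup Γ)
    (t : Γ) {T T' : ℕ} (h : T ≤ T') : fhP u N t T ≤ fhP u N t T' := by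
  refine Submodule.span_le.mpr ?_
  rintro _ ⟨j, rfl⟩
  refine fhP_mem u N t T' _ ?_
  have := j.2
  rw [abs_le]
  constructor <;> omega

theorem fhP_finrank_le {Γ : Type} [Group Γ] {D : Type} [DivisionRing D] (u : Γ →* Dˣ)
    (N : Subgroup Γ) (t : Γ) (T : ℕ) : Module.finrank (Dc u N) (fhP u N t T) ≤ 2 * T + 1 := by
  have := finrank_range_le_card (R := Dc u N)
    (fun j : Fin (2 * T + 1) => ((u (t ^ ((j : ℤ) - T)) : Dˣ) : D))
  rw [Fintype.card_fin] at this
  exact this

theorem fhP_finite {Γ : Type} [Group Γ] {D : Type} [DivisionRing D] (u : Γ →* Dˣ)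
    (N : Subgroup Γ) (t : Γ) (T : ℕ) : Module.Finite (Dc u N) (fhP u N t T) := by
  unfold fhP
  exact FiniteDimensional.span_of_finite _ (Set.finite_range _)

attribute [local instance] fhP_finite

theorem fhP_finrank {Γ : Type} [Group Γ] {D : Type} [DivisionRing D] (u : Γ →* Dˣ)
    (hu : Linnell u) (φ : Γ →* Multiplicative ℤ) (t : Γ) (ht : φ t = Multiplicative.ofAdd 1)
    (T : ℕ) : Module.finrank (Dc u φ.ker) (fhP u φ.ker t T) = 2 * T + 1 := by
  have hinj : Function.Injective (fun j : Fin (2 * T + 1) => t ^ ((j : ℤ) - T)) := by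
    intro i j hij
    have h1 := congrArg φ hij
    simp only [map_zpow, ht] at h1
    have h2 := congrArg Multiplicative.toAdd h1
    simp only [toAdd_zpow, toAdd_ofAdd, smul_eq_mul, mul_one] at h2
    ext
    omega
  have hli : LinearIndependent (Dc u φ.ker)
      (fun j : Fin (2 * T + 1) => ((u (t ^ ((j : ℤ) - T)) : Dˣ) : D)) := by
    have h1 := hu φ.ker inferInstance
      (Finset.univ.image (fun j : Fin (2 * T + 1) => t ^ ((j : ℤ) - T))) (by
        intro g hg h hh hne hmem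
        simp only [Finset.mem_image, Finset.mem_univ, true_and] at hg hh
        obtain ⟨i, rfl⟩ := hg
        obtain ⟨j, rfl⟩ := hh
        apply hne
        rw [MonoidHom.mem_ker, map_mul, map_inv, map_zpow, map_zpow, ht] at hmem
        have h2 := congrArg Multiplicative.toAdd hmem
        simp only [toAdd_mul, toAdd_inv, toAdd_zpow, toAdd_ofAdd, smul_eq_mul, mul_one,
          toAdd_one] at h2
        congr 1
        omega)
    let f : Fin (2 * T + 1) → ↥(Finset.univ.image (fun j : Fin (2 * T + 1) => t ^ ((j : ℤ) - T))) :=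
      fun j => ⟨t ^ ((j : ℤ) - T), Finset.mem_image_of_mem _ (Finset.mem_univ j)⟩
    have hf : Function.Injective f := by
      intro i j hij
      exact hinj (congrArg Subtype.val hij)
    exact h1.comp f hf
  have := finrank_span_eq_card hli
  rw [Fintype.card_fin] at this
  exact this

theorem fh_u_mem {Γ : Type} [Group Γ] {D : Type} [DivisionRing D] (u : Γ →* Dˣ)
    (N : Subgroup Γ) {g : Γ} (hg : g ∈ N) : ((u g : Dˣ) : D) ∈ Dc u N :=
  Subfield.subset_closure ⟨g, hg, rfl⟩

theorem fh_SN {Γ : Type} [Group Γ] {D : Type} [DivisionRing D] (u : Γ →* Dˣ)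
    (φ : Γ →* Multiplicative ℤ) (t : Γ) (ht : φ t = Multiplicative.ofAdd 1) {x : D}
    (hx : x ∈ SN u φ.ker) : ∃ T : ℕ, x ∈ fhP u φ.ker t T := by
  unfold SN at hx
  induction hx using Submodule.span_induction with
  | mem x hx =>
    obtain ⟨g, rfl⟩ := hx
    set j : ℤ := Multiplicative.toAdd (φ g) with hj
    refine ⟨j.natAbs, ?_⟩
    have hn : g * (t ^ j)⁻¹ ∈ φ.ker := by
      rw [MonoidHom.mem_ker, map_mul, map_inv, map_zpow, ht]
      apply Multiplicative.toAdd.injective
      simp only [toAdd_mul, toAdd_inv, toAdd_zpow, toAdd_ofAdd, smul_eq_mul, mul_one, toAdd_one]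
      omega
    have h1 : ((u g : Dˣ) : D) = (⟨((u (g * (t ^ j)⁻¹) : Dˣ) : D), fh_u_mem u φ.ker hn⟩ : Dc u φ.ker) •
        ((u (t ^ j) : Dˣ) : D) := by
      rw [fh_smul]
      show ((u g : Dˣ) : D) = ((u (g * (t ^ j)⁻¹) : Dˣ) : D) * ((u (t ^ j) : Dˣ) : D)
      rw [← Units.val_mul, ← map_mul]
      simp
    show ((u g : Dˣ) : D) ∈ _
    rw [h1]
    refine Submodule.smul_mem _ _ (fhP_mem u φ.ker t _ j ?_)
    simp
  | zero => exact ⟨0, Submodule.zero_mem _⟩
  | add x y _ _ hx hy =>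
    obtain ⟨T, hT⟩ := hx
    obtain ⟨T', hT'⟩ := hy
    exact ⟨max T T', Submodule.add_mem _ (fhP_mono u φ.ker t (le_max_left T T') hT)
      (fhP_mono u φ.ker t (le_max_right T T') hT')⟩
  | smul c x _ hx =>
    obtain ⟨T, hT⟩ := hx
    exact ⟨T, Submodule.smul_mem _ _ hT⟩

theorem fh_ev {Γ : Type} [Group Γ] {D : Type} [DivisionRing D] (u : Γ →* Dˣ)
    (N : Subgroup Γ) (x : MonoidAlgebra ℤ Γ) : ev u x ∈ SN u N := by
  have h1 : ev u x = (MonoidAlgebra.lift ℤ D Γ ((Units.coeHom D).comp u)) x := rfl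
  rw [h1, MonoidAlgebra.lift_apply]
  refine Submodule.sum_mem _ fun g _ => ?_
  refine zsmul_mem ?_ _
  exact Submodule.subset_span ⟨g, rfl⟩

theorem fh_mul1 {Γ : Type} [Group Γ] {D : Type} [DivisionRing D] (u : Γ →* Dˣ)
    (N : Subgroup Γ) (hN : N.Normal) (t : Γ) {T C : ℕ} (i : Fin (2 * T + 1)) {y : D}
    (hy : y ∈ fhP u N t C) :
    ((u (t ^ ((i : ℤ) - T)) : Dˣ) : D) * y ∈ fhP u N t (T + C) := by
  unfold fhP at hy
  induction hy using Submodule.span_induction with
  | mem y hy =>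
    obtain ⟨j, rfl⟩ := hy
    show ((u (t ^ ((i : ℤ) - T)) : Dˣ) : D) * ((u (t ^ ((j : ℤ) - C)) : Dˣ) : D) ∈ _
    rw [← Units.val_mul, ← map_mul, ← zpow_add]
    refine fhP_mem u N t _ _ ?_
    have := i.2
    have := j.2
    rw [abs_le]
    constructor <;> omega
  | zero => simp
  | add y z hy1 hz1 hy hz =>
    rw [mul_add]
    exact Submodule.add_mem _ hy hz
  | smul c y hy1 hy =>
    set g := t ^ ((i : ℤ) - T) with hg
    have h3 := conj_Dc u N hN g c c.2
    have h4 : ((u g : Dˣ) : D) * (c • y) =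
        (⟨_, h3⟩ : Dc u N) • (((u g : Dˣ) : D) * y) := by
      rw [fh_smul, fh_smul]
      show ((u g : Dˣ) : D) * (c * y) = (((u g : Dˣ) : D) * c * ((u g⁻¹ : Dˣ) : D)) * (((u g : Dˣ) : D) * y)
      have h5 : ((u g⁻¹ : Dˣ) : D) * ((u g : Dˣ) : D) = 1 := by
        rw [← Units.val_mul, ← map_mul]; simp
      calc ((u g : Dˣ) : D) * (c * y) = ((u g : Dˣ) : D) * c * (1 * y) := by
            rw [one_mul, mul_assoc]
        _ = _ := by rw [← h5]; simp only [mul_assoc]
    rw [h4]
    exact Submodule.smul_mem _ _ hy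

theorem fh_mul {Γ : Type} [Group Γ] {D : Type} [DivisionRing D] (u : Γ →* Dˣ)
    (N : Subgroup Γ) (hN : N.Normal) (t : Γ) {T C : ℕ} {x y : D} (hx : x ∈ fhP u N t T)
    (hy : y ∈ fhP u N t C) : x * y ∈ fhP u N t (T + C) := by
  unfold fhP at hx
  induction hx using Submodule.span_induction with
  | mem x hx =>
    obtain ⟨i, rfl⟩ := hx
    exact fh_mul1 u N hN t i hy
  | zero => simp
  | add x z hx1 hz1 hx hz =>
    rw [add_mul]
    exact Submodule.add_mem _ hx hz
  | smul c x hx1 hx =>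
    have h2 : (c • x) * y = c • (x * y) := by
      rw [fh_smul, fh_smul, mul_assoc]
    rw [h2]
    exact Submodule.smul_mem _ _ hx

theorem fh_top_le {Γ : Type} [Group Γ] {D : Type} [DivisionRing D] (u : Γ →* Dˣ) {x : D}
    (hx : x ∈ SN u ⊤) : x ∈ Dc u ⊤ := by
  unfold SN at hx
  induction hx using Submodule.span_induction with
  | mem x hx =>
    obtain ⟨g, rfl⟩ := hx
    exact fh_u_mem u ⊤ (Subgroup.mem_top g)
  | zero => exact zero_mem _
  | add x y _ _ hx hy => exact add_mem hx hy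
  | smul c x _ hx => rw [fh_smul]; exact mul_mem c.2 hx

theorem fh_le_top {Γ : Type} [Group Γ] {D : Type} [DivisionRing D] (u : Γ →* Dˣ) {x : D}
    (hx : x ∈ Dc u ⊤) : x ∈ SN u ⊤ := by
  have h1 : x = (⟨x, hx⟩ : Dc u ⊤) • (((u 1 : Dˣ)) : D) := by
    rw [fh_smul]; simp
  rw [h1]
  exact Submodule.smul_mem _ _ (Submodule.subset_span ⟨1, rfl⟩)

theorem fh_SN_top {Γ : Type} [Group Γ] {D : Type} [DivisionRing D] (u : Γ →* Dˣ)
    (N : Subgroup Γ) {x : D} (hx : x ∈ SN u N) : x ∈ Dc u ⊤ := by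
  unfold SN at hx
  induction hx using Submodule.span_induction with
  | mem x hx =>
    obtain ⟨g, rfl⟩ := hx
    exact fh_u_mem u ⊤ (Subgroup.mem_top g)
  | zero => exact zero_mem _
  | add x y _ _ hx hy => exact add_mem hx hy
  | smul c x _ hx =>
    rw [fh_smul]
    refine mul_mem ?_ hx
    have h1 : Dc u N ≤ Dc u ⊤ := by
      unfold Dc
      refine Subfield.closure_mono ?_
      rintro _ ⟨g, _, rfl⟩
      exact ⟨g, Subgroup.mem_top g, rfl⟩
    exact h1 c.2

theorem fh_P_SN {Γ : Type} [Group Γ] {D : Type} [DivisionRing D] (u : Γ →* Dˣ)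
    (N : Subgroup Γ) (t : Γ) (T : ℕ) : fhP u N t T ≤ SN u N := by
  refine Submodule.span_le.mpr ?_
  rintro _ ⟨j, rfl⟩
  exact Submodule.subset_span ⟨_, rfl⟩

theorem fh_bound {Γ : Type} [Group Γ] {D : Type} [DivisionRing D] (u : Γ →* Dˣ)
    (N : Subgroup Γ) (t : Γ) (T : ℕ) {b : ℕ} (V : Submodule (Dc u ⊤) (Fin b → Dc u ⊤))
    {W : Type} [AddCommGroup W] [Module (Dc u N) W] (j : W →ₗ[Dc u N] (Fin b → D))
    (hj : Function.Injective j) (h1 : ∀ w i, j w i ∈ fhP u N t T)
    (h2 : ∀ w, ∃ v ∈ V, ∀ i, ((v i : Dc u ⊤) : D) = j w i) :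
    Module.Finite (Dc u N) W ∧
      Module.finrank (Dc u N) W ≤ Module.finrank (Dc u ⊤) V * (2 * T + 1) := by
  obtain ⟨I, hI, hI2⟩ := coord V
  let Φ : W →ₗ[Dc u N] (I → fhP u N t T) :=
    { toFun := fun w i => ⟨j w i, h1 w i⟩
      map_add' := by
        intro x y
        ext i
        simp
      map_smul' := by
        intro c x
        ext i
        simp }
  have hΦ : Function.Injective Φ := by
    rw [injective_iff_map_eq_zero]
    intro w hw
    obtain ⟨v, hv, hvw⟩ := h2 w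
    have h3 : v = 0 := by
      refine hI2 v hv fun i hi => ?_
      have h4 := congrFun hw ⟨i, hi⟩
      have h5 : j w i = 0 := congrArg Subtype.val h4
      apply Subtype.ext
      rw [hvw i, h5]
      rfl
    apply hj
    rw [map_zero]
    ext i
    rw [← hvw i, h3]
    rfl
  have hfin : Module.Finite (Dc u N) W := Module.Finite.of_injective Φ hΦ
  refine ⟨hfin, ?_⟩
  have h3 := LinearMap.finrank_le_finrank_of_injective hΦ
  rw [Module.finrank_pi_fintype] at h3
  simp only [Finset.sum_const, Finset.card_univ, Fintype.card_coe, smul_eq_mul] at h3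
  rw [hI] at h3
  exact h3.trans (Nat.mul_le_mul_left _ (fhP_finrank_le u N t T))

/-- the matrix product as a linear map -/
def fhG {Γ : Type} [Group Γ] {D : Type} [DivisionRing D] (u : Γ →* Dˣ)
    (N : Subgroup Γ) (t : Γ) (S : ℕ) {a b : ℕ} (A : Matrix (Fin a) (Fin b) D) :
    (Fin a → fhP u N t S) →ₗ[Dc u N] (Fin b → D) where
  toFun w := Matrix.vecMul (fun i => (w i : D)) A
  map_add' := by
    intro x y
    rw [← Matrix.add_vecMul]
    rfl
  map_smul' := by
    intro c x
    rw [RingHom.id_apply, ← Matrix.smul_vecMul]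
    rfl

/-- the matrix over the big division ring -/
noncomputable def fhK {Γ : Type} [Group Γ] {D : Type} [DivisionRing D] (u : Γ →* Dˣ)
    {a b : ℕ} (A : Matrix (Fin a) (Fin b) (MonoidAlgebra ℤ Γ)) :
    Matrix (Fin a) (Fin b) (Dc u ⊤) :=
  fun i j => ⟨ev u (A i j), fh_top_le u (fh_ev u ⊤ (A i j))⟩

theorem fhK_vecMul {Γ : Type} [Group Γ] {D : Type} [DivisionRing D] (u : Γ →* Dˣ)
    {a b : ℕ} (A : Matrix (Fin a) (Fin b) (MonoidAlgebra ℤ Γ)) (w : Fin a → Dc u ⊤) (j : Fin b) :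
    ((Matrix.vecMul w (fhK u A) j : Dc u ⊤) : D) =
      Matrix.vecMul (fun i => ((w i : Dc u ⊤) : D)) (A.map (ev u)) j := by
  simp only [Matrix.vecMul, dotProduct, fhK, Matrix.map_apply]
  push_cast
  rfl

/-- solutions over the big division ring -/
noncomputable def fhV {Γ : Type} [Group Γ] {D : Type} [DivisionRing D] (u : Γ →* Dˣ)
    {b c : ℕ} (B : Matrix (Fin b) (Fin c) (MonoidAlgebra ℤ Γ)) :
    Submodule (Dc u ⊤) (Fin b → Dc u ⊤) :=
  LinearMap.ker (Matrix.vecMulLinear (fhK u B))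

theorem fhV_mem {Γ : Type} [Group Γ] {D : Type} [DivisionRing D] (u : Γ →* Dˣ)
    {b c : ℕ} (B : Matrix (Fin b) (Fin c) (MonoidAlgebra ℤ Γ)) (v : Fin b → Dc u ⊤) :
    v ∈ fhV u B ↔ Matrix.vecMul (fun i => ((v i : Dc u ⊤) : D)) (B.map (ev u)) = 0 := by
  unfold fhV
  rw [LinearMap.mem_ker, Matrix.vecMulLinear_apply]
  constructor
  · intro h
    ext j
    rw [← fhK_vecMul, h]
    rfl
  · intro h
    ext j
    rw [fhK_vecMul, h]
    rfl

theorem fh_exact {Γ : Type} [Group Γ] {D : Type} [DivisionRing D] (u : Γ →* Dˣ)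
    {a b c : ℕ}
    (A : Matrix (Fin a) (Fin b) (MonoidAlgebra ℤ Γ)) (B : Matrix (Fin b) (Fin c) (MonoidAlgebra ℤ Γ))
    (hAB : A * B = 0)
    (hex : ∀ v ∈ ZN u ⊤ (B.map (ev u)), v ∈ BN u ⊤ (A.map (ev u))) :
    LinearMap.range (Matrix.vecMulLinear (fhK u A)) = fhV u B := by
  have hAB' : A.map (ev u) * B.map (ev u) = 0 := by
    have h : (A * B).map (ev u) = A.map (ev u) * B.map (ev u) := Matrix.map_mul
    rw [← h, hAB]
    ext i j
    simp
  apply le_antisymm
  · rintro _ ⟨w, rfl⟩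
    rw [fhV_mem, Matrix.vecMulLinear_apply]
    have h1 : (fun i => ((Matrix.vecMul w (fhK u A) i : Dc u ⊤) : D)) =
        Matrix.vecMul (fun i => ((w i : Dc u ⊤) : D)) (A.map (ev u)) := by
      ext i
      exact fhK_vecMul u A w i
    rw [h1, Matrix.vecMul_vecMul, hAB', Matrix.vecMul_zero]
  · intro v hv
    rw [fhV_mem] at hv
    obtain ⟨w, hw, hvw⟩ := hex (fun i => ((v i : Dc u ⊤) : D)) ⟨fun i => fh_le_top u (v i).2, hv⟩
    refine ⟨fun i => ⟨w i, fh_top_le u (hw i)⟩, ?_⟩
    rw [Matrix.vecMulLinear_apply]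
    ext j
    rw [fhK_vecMul]
    exact (congrFun hvw j).symm

theorem fh_range {Γ : Type} [Group Γ] {D : Type} [DivisionRing D] (u : Γ →* Dˣ) (hu : Linnell u)
    {a b c : ℕ}
    (A : Matrix (Fin a) (Fin b) (MonoidAlgebra ℤ Γ)) (B : Matrix (Fin b) (Fin c) (MonoidAlgebra ℤ Γ))
    (hAB : A * B = 0)
    (hex : ∀ v ∈ ZN u ⊤ (B.map (ev u)), v ∈ BN u ⊤ (A.map (ev u)))
    (φ : Γ →* Multiplicative ℤ) (t : Γ) (ht : φ t = Multiplicative.ofAdd 1) (S : ℕ) :
    Module.finrank (Dc u ⊤) (fhV u B) * (2 * S + 1) ≤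
      Module.finrank (Dc u φ.ker) (LinearMap.range (fhG u φ.ker t S (A.map (ev u)))) := by
  have h1 := LinearMap.finrank_range_add_finrank_ker (fhG u φ.ker t S (A.map (ev u)))
  rw [Module.finrank_pi_fintype] at h1
  simp only [fhP_finrank u hu φ t ht, Finset.sum_const, Finset.card_univ, Fintype.card_fin,
    smul_eq_mul] at h1
  have h2 := LinearMap.finrank_range_add_finrank_ker (Matrix.vecMulLinear (fhK u A))
  rw [fh_exact u A B hAB hex, Module.finrank_fin_fun] at h2
  let W : Submodule (Dc u φ.ker) (Fin a → fhP u φ.ker t S) :=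
    LinearMap.ker (fhG u φ.ker t S (A.map (ev u)))
  let jj : W →ₗ[Dc u φ.ker] (Fin a → D) :=
    { toFun := fun w i => ((w.1 i : fhP u φ.ker t S) : D)
      map_add' := by
        intro x y
        ext i
        simp
      map_smul' := by
        intro c x
        ext i
        simp }
  have hjj : Function.Injective jj := by
    intro x y hxy
    apply Subtype.ext
    funext i
    apply Subtype.ext
    exact congrFun hxy i
  have hjj1 : ∀ (w : W) (i : Fin a), jj w i ∈ fhP u φ.ker t S := by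
    intro w i
    exact (w.1 i).2
  have hjj2 : ∀ w : W, ∃ v ∈ fhV u A, ∀ i, ((v i : Dc u ⊤) : D) = jj w i := by
    intro w
    refine ⟨fun i => ⟨(w.1 i : D), fh_SN_top u φ.ker (fh_P_SN u φ.ker t S (w.1 i).2)⟩, ?_, ?_⟩
    · rw [fhV_mem]
      have := w.2
      rw [LinearMap.mem_ker] at this
      exact this
    · intro i
      rfl
  have h3 := fh_bound (W := W) u φ.ker t S (fhV u A) jj hjj hjj1 hjj2
  have h4 := h3.2
  have h5 : Module.finrank (Dc u ⊤) (fhV u A) = Module.finrank (Dc u ⊤)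
    (LinearMap.ker (Matrix.vecMulLinear (fhK u A))) := rfl
  rw [h5] at h4
  nlinarith

theorem finite_HN {Γ : Type} [Group Γ] {D : Type} [DivisionRing D] (u : Γ →* Dˣ) (hu : Linnell u)
    {a b c : ℕ}
    (A : Matrix (Fin a) (Fin b) (MonoidAlgebra ℤ Γ)) (B : Matrix (Fin b) (Fin c) (MonoidAlgebra ℤ Γ))
    (hAB : A * B = 0)
    (hex : ∀ v ∈ ZN u ⊤ (B.map (ev u)), v ∈ BN u ⊤ (A.map (ev u)))
    (φ : Γ →* Multiplicative ℤ) (hφ : Function.Surjective φ) :
    Module.Finite (Dc u φ.ker) (HN u φ.ker (A.map (ev u)) (B.map (ev u))) := by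
  classical
  obtain ⟨t, ht⟩ := hφ (Multiplicative.ofAdd 1)
  set A' := A.map (ev u) with hA'
  set B' := B.map (ev u) with hB'
  have hAB' : A' * B' = 0 := by
    have h : (A * B).map (ev u) = A.map (ev u) * B.map (ev u) := Matrix.map_mul
    rw [hA', hB', ← h, hAB]
    ext i j
    simp
  -- entries of A' in some P_C
  have hC : ∃ C : ℕ, ∀ i j, A' i j ∈ fhP u φ.ker t C := by
    choose f hf using fun (p : Fin a × Fin b) => fh_SN u φ t ht (fh_ev u φ.ker (A p.1 p.2))
    refine ⟨Finset.univ.sup f, fun i j => ?_⟩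
    exact fhP_mono u φ.ker t (Finset.le_sup (Finset.mem_univ (i, j))) (hf (i, j))
  obtain ⟨C, hC⟩ := hC
  set r := Module.finrank (Dc u ⊤) (fhV u B) with hr
  have hrank : Module.rank (Dc u φ.ker) (HN u φ.ker A' B') ≤ ((2 * r * C : ℕ) : Cardinal) := by
    refine rank_le fun s hs => ?_
    -- lifts
    choose v hv using fun i : s => Submodule.mkQ_surjective
      ((BN u φ.ker A').submoduleOf (ZN u φ.ker B')) (i : HN u φ.ker A' B')
    have hlid : ∀ cf : s → Dc u φ.ker, (∑ i, cf i • ((v i : ZN u φ.ker B') : Fin b → D)) ∈ BN u φ.ker A' →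
        ∀ i, cf i = 0 := by
      intro cf hcf
      rw [Fintype.linearIndependent_iff] at hs
      refine hs cf ?_
      have h1 : ∑ i, cf i • ((i : s) : HN u φ.ker A' B') =
          Submodule.mkQ ((BN u φ.ker A').submoduleOf (ZN u φ.ker B')) (∑ i, cf i • v i) := by
        rw [map_sum]
        refine Finset.sum_congr rfl fun i _ => ?_
        rw [map_smul, hv i]
      rw [h1, Submodule.mkQ_apply, Submodule.Quotient.mk_eq_zero]
      rw [Submodule.submoduleOf, Submodule.mem_comap]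
      have h2 : (ZN u φ.ker B').subtype (∑ i, cf i • v i) =
          ∑ i, cf i • ((v i : ZN u φ.ker B') : Fin b → D) := by
        rw [map_sum]
        refine Finset.sum_congr rfl fun i _ => ?_
        rw [map_smul]
        rfl
      rw [h2]
      exact hcf
    have hli : LinearIndependent (Dc u φ.ker)
        (fun i : s => ((v i : ZN u φ.ker B') : Fin b → D)) := by
      rw [Fintype.linearIndependent_iff]
      intro cf hcf
      refine hlid cf ?_
      rw [hcf]
      exact Submodule.zero_mem _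
    -- bound on degrees
    have hS : ∃ S : ℕ, ∀ (i : s) (j : Fin b), ((v i : ZN u φ.ker B') : Fin b → D) j ∈ fhP u φ.ker t S := by
      choose f hf using fun (p : s × Fin b) => fh_SN u φ t ht ((v p.1).2.1 p.2)
      refine ⟨Finset.univ.sup f, fun i j => ?_⟩
      exact fhP_mono u φ.ker t (Finset.le_sup (Finset.mem_univ (i, j))) (hf (i, j))
    obtain ⟨S, hS⟩ := hS
    let W : Submodule (Dc u φ.ker) (Fin b → D) :=
      { carrier := {x | (∀ i, x i ∈ fhP u φ.ker t (S + C)) ∧ Matrix.vecMul x B' = 0}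
        add_mem' := by
          rintro x y ⟨h1, h2⟩ ⟨h3, h4⟩
          exact ⟨fun i => Submodule.add_mem _ (h1 i) (h3 i), by rw [Matrix.add_vecMul, h2, h4, add_zero]⟩
        zero_mem' := ⟨fun i => Submodule.zero_mem _, by simp⟩
        smul_mem' := by
          rintro x y ⟨h1, h2⟩
          refine ⟨fun i => Submodule.smul_mem _ _ (h1 i), ?_⟩
          rw [Matrix.smul_vecMul, h2, smul_zero] }
    have hWb := fh_bound u φ.ker t (S + C) (fhV u B) W.subtype (Submodule.subtype_injective W)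
      (fun w i => w.2.1 i) (by
        intro w
        refine ⟨fun i => ⟨(w.1 i : D), fh_SN_top u φ.ker (fh_P_SN u φ.ker t (S + C) (w.2.1 i))⟩, ?_, ?_⟩
        · rw [fhV_mem]
          exact w.2.2
        · intro i
          rfl)
    have hWf := hWb.1
    have hWr := hWb.2
    let Y : Submodule (Dc u φ.ker) (Fin b → D) :=
      Submodule.span (Dc u φ.ker) (Set.range (fun i : s => ((v i : ZN u φ.ker B') : Fin b → D)))
    let J := LinearMap.range (fhG u φ.ker t S A')
    have hYW : Y ≤ W := by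
      refine Submodule.span_le.mpr ?_
      rintro _ ⟨i, rfl⟩
      exact ⟨fun j => fhP_mono u φ.ker t (Nat.le_add_right S C) (hS i j), (v i).2.2⟩
    have hJW : J ≤ W := by
      rintro _ ⟨w, rfl⟩
      constructor
      · intro j
        show Matrix.vecMul (fun i => (w i : D)) A' j ∈ _
        rw [Matrix.vecMul, dotProduct]
        refine Submodule.sum_mem _ fun i _ => ?_
        exact fh_mul u φ.ker inferInstance t (w i).2 (hC i j)
      · show Matrix.vecMul (Matrix.vecMul (fun i => (w i : D)) A') B' = 0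
        rw [Matrix.vecMul_vecMul, hAB', Matrix.vecMul_zero]
    have hJB : J ≤ BN u φ.ker A' := by
      rintro _ ⟨w, rfl⟩
      exact ⟨fun i => (w i : D), fun i => fh_P_SN u φ.ker t S (w i).2, rfl⟩
    have hinf : Y ⊓ J = ⊥ := by
      rw [eq_bot_iff]
      rintro x ⟨hx1, hx2⟩
      have hx3 : x ∈ Submodule.span (Dc u φ.ker)
        (Set.range (fun i : s => ((v i : ZN u φ.ker B') : Fin b → D))) := hx1
      rw [Submodule.mem_span_range_iff_exists_fun] at hx3
      obtain ⟨cf, hcf⟩ := hx3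
      have h0 := hlid cf (by rw [hcf]; exact hJB hx2)
      rw [Submodule.mem_bot, ← hcf]
      refine Finset.sum_eq_zero fun i _ => ?_
      rw [h0 i, zero_smul]
    have hYf : Module.Finite (Dc u φ.ker) Y := FiniteDimensional.span_of_finite _ (Set.finite_range _)
    have hJf : Module.Finite (Dc u φ.ker) J := Module.Finite.range _
    have hYr : Module.finrank (Dc u φ.ker) Y = s.card := by
      have := finrank_span_eq_card hli
      rw [Fintype.card_coe] at this
      exact this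
    have hJr : r * (2 * S + 1) ≤ Module.finrank (Dc u φ.ker) J :=
      fh_range u hu A B hAB hex φ t ht S
    have hsum := Submodule.finrank_sup_add_finrank_inf_eq Y J
    rw [hinf, finrank_bot, add_zero] at hsum
    have hle : Module.finrank (Dc u φ.ker) ↥(Y ⊔ J) ≤ Module.finrank (Dc u φ.ker) W :=
      Submodule.finrank_mono (sup_le hYW hJW)
    rw [hsum, hYr] at hle
    have h9 : s.card + r * (2 * S + 1) ≤ r * (2 * (S + C) + 1) :=
      (Nat.add_le_add_left hJr _).trans (hle.trans hWr)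
    have h10 : r * (2 * (S + C) + 1) = 2 * r * C + r * (2 * S + 1) := by ring
    rw [h10] at h9
    exact Nat.le_of_add_le_add_right h9
  exact Module.rank_lt_aleph0_iff.mp (hrank.trans_lt (Cardinal.natCast_lt_aleph0))

end TN970
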