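import Pool.Agent.Helper970.TN.Defs



namespace TN970
open scoped Classical


theorem deriv_evconst (a : ℕ → ℤ) (ha : ∀ n, a (n + 1) ≤ a n) (B : ℤ) (hB : ∀ n, B ≤ a n) :
    ∃ L : ℤ, (∃ N, ∀ n, N ≤ n → a n = L) ∧ L ≤ a 0 := by
  have hanti : Antitone a := antitone_nat_of_succ_le ha
  have hmem : sInf (Set.range (fun n => (a n - B).toNat)) ∈
      Set.range (fun n => (a n - B).toNat) := Nat.sInf_mem (Set.range_nonempty _)
  obtain ⟨N, hN⟩ := hmem
  refine ⟨a N, ⟨N, ?_⟩, hanti (Nat.zero_le N)⟩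
  intro n hn
  have h1 : a n ≤ a N := hanti hn
  have h2 : sInf (Set.range (fun n => (a n - B).toNat)) ≤ (a n - B).toNat :=
    Nat.sInf_le ⟨n, rfl⟩
  rw [← hN] at h2
  have h3 := hB n
  have h4 := hB N
  simp only at h2
  omega

theorem deriv_lemma {V : Type} [AddCommGroup V] (p : V → ℤ)
    (hadd : ∀ x y, p (x + y) ≤ p x + p y) (hmul : ∀ (k : ℕ) (x : V), p (k • x) = k * p x)
    (z : V) :
    ∃ p' : V → ℤ, (∀ x y, p' (x + y) ≤ p' x + p' y) ∧ (∀ (k : ℕ) (x : V), p' (k • x) = k * p' x) ∧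
      (∀ x, p' x ≤ p x) ∧ p' z = p z ∧ p' (-z) = - p z := by
  have hev : ∀ y : V, ∃ L : ℤ, (∃ N : ℕ, ∀ n : ℕ, N ≤ n → p (n • z + y) - n * p z = L) ∧
      L ≤ p y := by
    intro y
    obtain ⟨L, h1, h2⟩ := deriv_evconst (fun n : ℕ => p (n • z + y) - n * p z) (by
      intro n
      have h := hadd (n • z + y) z
      have e : (n + 1) • z + y = n • z + y + z := by
        rw [add_smul, one_smul]; abel
      show p ((n + 1) • z + y) - ((n + 1 : ℕ) : ℤ) * p z ≤ p (n • z + y) - n * p z
      rw [e]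
      push_cast
      linarith) (- p (-y)) (by
      intro n
      have h := hadd (n • z + y) (-y)
      have e : n • z + y + -y = n • z := by abel
      rw [e, hmul] at h
      show - p (-y) ≤ p (n • z + y) - n * p z
      linarith)
    refine ⟨L, h1, ?_⟩
    have h3 : L ≤ p (0 • z + y) - ((0 : ℕ) : ℤ) * p z := h2
    simpa using h3
  choose p' hp' using hev
  have huniq : ∀ (y : V) (L : ℤ), (∃ N : ℕ, ∀ n : ℕ, N ≤ n → p (n • z + y) - n * p z = L) →
      p' y = L := by
    intro y L h
    obtain ⟨N, hN⟩ := h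
    obtain ⟨N', hN'⟩ := (hp' y).1
    rw [← hN (max N N') (le_max_left _ _), hN' (max N N') (le_max_right _ _)]
  refine ⟨p', ?_, ?_, fun x => (hp' x).2, ?_, ?_⟩
  · intro x y
    obtain ⟨N1, h1⟩ := (hp' x).1
    obtain ⟨N2, h2⟩ := (hp' y).1
    obtain ⟨N3, h3⟩ := (hp' (x + y)).1
    set n := max N1 (max N2 N3) with hn
    have e1 := h1 n (le_max_left _ _)
    have e2 := h2 n (le_trans (le_max_left _ _) (le_max_right _ _))
    have hn3 : N3 ≤ n := le_trans (le_max_right _ _) (le_max_right _ _)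
    have e3 := h3 (n + n) (by omega)
    have h := hadd (n • z + x) (n • z + y)
    have e : n • z + x + (n • z + y) = (n + n) • z + (x + y) := by
      rw [add_smul]; abel
    rw [e] at h
    push_cast at e3
    linarith
  · intro k x
    obtain ⟨N1, h1⟩ := (hp' x).1
    rcases Nat.eq_zero_or_pos k with hk | hk
    · subst hk
      rw [huniq (0 • x) 0 ⟨0, ?_⟩]
      · simp
      · intro n _
        rw [zero_smul, add_zero, hmul]
        ring
    · obtain ⟨N2, h2⟩ := (hp' (k • x)).1
      set n := max N1 N2 with hn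
      have e1 := h1 n (le_max_left _ _)
      have hn2 : N2 ≤ n := le_max_right _ _
      have hkn : n ≤ k * n := Nat.le_mul_of_pos_left n hk
      have e2 := h2 (k * n) (le_trans hn2 hkn)
      have e : (k * n) • z + k • x = k • (n • z + x) := by
        rw [smul_add, mul_smul]
      rw [e, hmul] at e2
      rw [← e2, ← e1]
      push_cast
      ring
  · apply huniq
    refine ⟨0, ?_⟩
    intro n _
    have e : n • z + z = (n + 1) • z := by
      rw [add_smul, one_smul]
    rw [e, hmul]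
    push_cast
    ring
  · apply huniq
    refine ⟨1, ?_⟩
    intro n hn
    obtain ⟨m, rfl⟩ : ∃ m, n = m + 1 := ⟨n - 1, by omega⟩
    have e : (m + 1) • z + -z = m • z := by
      rw [add_smul, one_smul]; abel
    rw [e, hmul]
    push_cast
    ring

end TN970
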