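import Pool.Agent.Helper970.TN.Defs
import Pool.Agent.Helper970.TN.P_norming



namespace TN970
open scoped Classical


theorem thurston {V : Type} [AddCommGroup V] (s : Finset V)
    (hs : AddSubgroup.closure (s : Set V) = ⊤)
    (p : V → ℤ) (hadd : ∀ x y, p (x + y) ≤ p x + p y)
    (hmul : ∀ (k : ℕ) (x : V), p (k • x) = k * p x) :
    ∃ T : Finset (V →+ ℤ), (∀ a ∈ T, ∀ y, a y ≤ p y) ∧ ∀ x, ∃ a ∈ T, a x = p x := by
  have hfin : {a : V →+ ℤ | ∀ y, a y ≤ p y}.Finite := by
    have h1 : (Set.pi Set.univ (fun z : s => Set.Icc (-p (-(z : V))) (p (z : V)))).Finite :=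
      Set.Finite.pi' (fun z => Set.finite_Icc _ _) |>.subset (fun f hf => by
        intro z; exact hf z (Set.mem_univ z))
    refine Set.Finite.of_injOn (f := fun (a : V →+ ℤ) (z : s) => a (z : V)) ?_ ?_ h1
    · intro a ha z _
      refine ⟨?_, ha z⟩
      have := ha (-(z : V))
      rw [map_neg] at this
      linarith
    · intro a _ b _ hab
      refine AddMonoidHom.eq_of_eqOn_dense hs ?_
      intro z hz
      exact congrFun hab ⟨z, hz⟩
  refine ⟨hfin.toFinset, ?_, ?_⟩
  · intro a ha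
    exact (Set.Finite.mem_toFinset hfin).mp ha
  · intro x
    obtain ⟨a, ha, hx⟩ := norming s hs p hadd hmul x
    exact ⟨a, (Set.Finite.mem_toFinset hfin).mpr ha, hx⟩

end TN970
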