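import Pool.Agent.Helper970.TN.Defs
import Pool.Agent.Helper970.TN.P_thurston
import Pool.Agent.Helper970.TN.P_fg_hom
import Pool.Agent.Helper970.TN.P_eval_surj
import Pool.Agent.Helper970.TN.P_linF_tmul



namespace TN970
open scoped Classical


theorem polytope {Γ : Type} [Group Γ] [Group.FG Γ] (β : (Γ →* Multiplicative ℤ) → ℕ)
    (hadd : ∀ φ ψ, β (φ * ψ) ≤ β φ + β ψ) (hmul : ∀ φ (k : ℤ), β (φ ^ k) = k.natAbs * β φ) :
    ∃ P : Finset (H1R Γ), P.Nonempty ∧ ∀ φ : Γ →* Multiplicative ℤ,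
      IsGreatest {t : ℝ | ∃ x ∈ convexHull ℝ (P : Set (H1R Γ)),
        ∃ y ∈ convexHull ℝ (P : Set (H1R Γ)), t = linF φ x - linF φ y} (β φ : ℝ) := by
  obtain ⟨s, hs⟩ := fg_hom (Γ := Γ)
  have hinv : ∀ φ : Γ →* Multiplicative ℤ, β φ⁻¹ = β φ := by
    intro φ
    have := hmul φ (-1)
    rw [zpow_neg_one] at this
    rw [this]
    simp
  obtain ⟨T, hT1, hT2⟩ := thurston s hs
    (fun x : Additive (Γ →* Multiplicative ℤ) => ((β (Additive.toMul x) : ℕ) : ℤ))
    (fun x y => by
      have := hadd (Additive.toMul x) (Additive.toMul y)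
      simp only [toMul_add]
      exact_mod_cast this)
    (fun k x => by
      have := hmul (Additive.toMul x) k
      simp only [toMul_nsmul]
      rw [zpow_natCast, Int.natAbs_natCast] at this
      rw [this]
      push_cast
      ring)
  choose g hg using fun a : Additive (Γ →* Multiplicative ℤ) →+ ℤ => eval_surj a
  let pt : (Additive (Γ →* Multiplicative ℤ) →+ ℤ) → H1R Γ := fun a =>
    TensorProduct.tmul ℤ (1 / 2 : ℝ) (Additive.ofMul (Abelianization.of (g a)))
  have hpt : ∀ (a : Additive (Γ →* Multiplicative ℤ) →+ ℤ) (φ : Γ →* Multiplicative ℤ),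
      linF φ (pt a) = (1 / 2 : ℝ) * ((a (Additive.ofMul φ) : ℤ) : ℝ) := by
    intro a φ
    rw [hg a φ]
    exact linF_tmul φ _ _
  have hneg : ∀ (a : Additive (Γ →* Multiplicative ℤ) →+ ℤ) (φ : Γ →* Multiplicative ℤ),
      a (Additive.ofMul φ⁻¹) = - a (Additive.ofMul φ) := by
    intro a φ
    rw [ofMul_inv, map_neg]
  refine ⟨T.image pt, ?_, ?_⟩
  · obtain ⟨a, ha, _⟩ := hT2 0
    exact ⟨pt a, Finset.mem_image_of_mem _ ha⟩
  · intro φ
    have hup : ∀ x ∈ convexHull ℝ ((T.image pt : Finset (H1R Γ)) : Set (H1R Γ)),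
        linF φ x ∈ Set.Icc (-(β φ : ℝ) / 2) ((β φ : ℝ) / 2) := by
      intro x hx
      have h1 : convexHull ℝ ((T.image pt : Finset (H1R Γ)) : Set (H1R Γ)) ⊆
          (linF φ) ⁻¹' Set.Icc (-(β φ : ℝ) / 2) ((β φ : ℝ) / 2) := by
        apply convexHull_min
        · intro y hy
          rw [Finset.mem_coe, Finset.mem_image] at hy
          obtain ⟨a, ha, rfl⟩ := hy
          have h2 := hT1 a ha (Additive.ofMul φ)
          have h3 := hT1 a ha (Additive.ofMul φ⁻¹)
          simp only [toMul_ofMul] at h2 h3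
          rw [hinv, hneg] at h3
          have h2' : ((a (Additive.ofMul φ) : ℤ) : ℝ) ≤ (β φ : ℝ) := by exact_mod_cast h2
          have h3' : -((a (Additive.ofMul φ) : ℤ) : ℝ) ≤ (β φ : ℝ) := by exact_mod_cast h3
          rw [Set.mem_preimage, hpt, Set.mem_Icc]
          constructor <;> linarith
        · exact (convex_Icc _ _).linear_preimage (linF φ)
      exact h1 hx
    constructor
    · obtain ⟨a, ha, hae⟩ := hT2 (Additive.ofMul φ)
      obtain ⟨b, hb, hbe⟩ := hT2 (Additive.ofMul φ⁻¹)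
      refine ⟨pt a, subset_convexHull _ _ (Finset.mem_coe.mpr (Finset.mem_image_of_mem _ ha)),
        pt b, subset_convexHull _ _ (Finset.mem_coe.mpr (Finset.mem_image_of_mem _ hb)), ?_⟩
      simp only [toMul_ofMul] at hae hbe
      rw [hinv, hneg] at hbe
      rw [hpt, hpt, hae]
      have hbe' : ((b (Additive.ofMul φ) : ℤ) : ℝ) = -(β φ : ℝ) := by
        have : b (Additive.ofMul φ) = -((β φ : ℕ) : ℤ) := by omega
        rw [this]; push_cast; rfl
      rw [hbe']
      push_cast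
      ring
    · rintro t ⟨x, hx, y, hy, rfl⟩
      have h1 := hup x hx
      have h2 := hup y hy
      rw [Set.mem_Icc] at h1 h2
      linarith [h1.2, h2.1]

end TN970
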