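import Pool.Agent.Helper970.TN.Defs
import Pool.Agent.Helper970.TN.P_conj_Dc



namespace TN970
open scoped Classical


theorem RN_mul {Γ : Type} [Group Γ] {D : Type} [DivisionRing D] (u : Γ →* Dˣ)
    (L N : Subgroup Γ) (hL : L.Normal) (x y : D) (hx : x ∈ RN u L N) (hy : y ∈ RN u L N) :
    x * y ∈ RN u L N := by
  have key : ∀ g ∈ N, ∀ y ∈ RN u L N, ((u g : Dˣ) : D) * y ∈ RN u L N := by
    intro g hg y hy
    unfold RN at hy ⊢
    induction hy using Submodule.span_induction with
    | mem y hy =>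
      obtain ⟨h, hh, rfl⟩ := hy
      apply Submodule.subset_span
      exact ⟨g * h, N.mul_mem hg hh, by rw [map_mul, Units.val_mul]⟩
    | zero => rw [mul_zero]; exact Submodule.zero_mem _
    | add y z _ _ h1 h2 => rw [mul_add]; exact Submodule.add_mem _ h1 h2
    | smul d y _ h1 =>
      have h2 := conj_Dc u L hL g (d : D) d.2
      have h3 : ((u g : Dˣ) : D) * (d • y) =
          (⟨((u g : Dˣ) : D) * (d : D) * ((u g⁻¹ : Dˣ) : D), h2⟩ : Dc u L) • (((u g : Dˣ) : D) * y) := by
        show ((u g : Dˣ) : D) * ((d : D) * y) =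
          (((u g : Dˣ) : D) * (d : D) * ((u g⁻¹ : Dˣ) : D)) * (((u g : Dˣ) : D) * y)
        have h4 : ((u g⁻¹ : Dˣ) : D) * ((u g : Dˣ) : D) = 1 := by
          rw [← Units.val_mul, ← map_mul, inv_mul_cancel, map_one, Units.val_one]
        rw [mul_assoc (((u g : Dˣ) : D) * (d : D)), ← mul_assoc ((u g⁻¹ : Dˣ) : D), h4, one_mul, mul_assoc]
      rw [h3]
      exact Submodule.smul_mem _ _ h1
  have hx' := hx
  unfold RN at hx'
  induction hx' using Submodule.span_induction with
  | mem x hx' =>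
    obtain ⟨h, hh, rfl⟩ := hx'
    exact key h hh y hy
  | zero => rw [zero_mul]; exact Submodule.zero_mem _
  | add x z h3 h4 h1 h2 => rw [add_mul]; exact Submodule.add_mem _ (h1 h3) (h2 h4)
  | smul d x h3 h1 =>
    have h2 : (d • x) * y = d • (x * y) := by
      show ((d : D) * x) * y = (d : D) * (x * y)
      rw [mul_assoc]
    rw [h2]
    exact Submodule.smul_mem _ _ (h1 h3)

end TN970
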