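import Pool.Agent.Helper970.TN.Defs



namespace TN970
open scoped Classical


theorem growth_exp (k : ℕ) : ∃ n : ℕ, (n + 1) ^ k < 2 ^ n := by
  have h := tendsto_pow_const_div_const_pow_of_one_lt k (one_lt_two : (1:ℝ) < 2)
  have h1 : ∀ᶠ n : ℕ in Filter.atTop, (n:ℝ) ^ k / 2 ^ n < 1 / 2 :=
    h.eventually (gt_mem_nhds (by norm_num))
  obtain ⟨m, hm, hm1⟩ := (h1.and (Filter.eventually_ge_atTop 1)).exists
  obtain ⟨n, rfl⟩ : ∃ n, m = n + 1 := ⟨m - 1, by omega⟩
  refine ⟨n, ?_⟩
  rw [div_lt_iff₀ (by positivity)] at hm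
  have h2 : ((n + 1 : ℕ) : ℝ) ^ k < 2 ^ n := by
    rw [pow_succ] at hm
    linarith
  exact_mod_cast h2

/-- iterated product sets -/
noncomputable def growthE {Q : Type} [CommGroup Q] (F : Finset Q) : ℕ → Finset Q
  | 0 => {1}
  | n + 1 => Finset.image (fun p : Q × Q => p.1 * p.2) (growthE F n ×ˢ F)

theorem growthE_mem {Q : Type} [CommGroup Q] (F : Finset Q) (n : ℕ) :
    ∀ y ∈ growthE F n, ∃ f : F → Fin (n + 1), y = ∏ x : F, (x : Q) ^ (f x : ℕ) := by
  induction n with
  | zero =>
    intro y hy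
    have hy' : y = 1 := Finset.mem_singleton.1 hy
    exact ⟨fun _ => 0, by simp [hy']⟩
  | succ n ih =>
    intro y hy
    obtain ⟨p, hp, rfl⟩ := Finset.mem_image.1 hy
    rw [Finset.mem_product] at hp
    obtain ⟨f, hf⟩ := ih p.1 hp.1
    refine ⟨fun x => ⟨(f x : ℕ) + (if x = ⟨p.2, hp.2⟩ then 1 else 0), by
      have := (f x).2
      split_ifs <;> omega⟩, ?_⟩
    show p.1 * p.2 = ∏ x : F, (x : Q) ^ ((f x : ℕ) + (if x = ⟨p.2, hp.2⟩ then 1 else 0))
    simp only [pow_add]
    rw [Finset.prod_mul_distrib, ← hf]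
    congr 1
    rw [Finset.prod_eq_single (⟨p.2, hp.2⟩ : F)]
    · simp
    · intro b _ hb
      simp [hb]
    · intro h
      exact absurd (Finset.mem_univ _) h

theorem growthE_card {Q : Type} [CommGroup Q] (F : Finset Q) (n : ℕ) :
    (growthE F n).card ≤ (n + 1) ^ F.card := by
  have h1 : growthE F n ⊆ Finset.image (fun f : F → Fin (n + 1) => ∏ x : F, (x : Q) ^ (f x : ℕ))
      Finset.univ := by
    intro y hy
    obtain ⟨f, hf⟩ := growthE_mem F n y hy
    exact Finset.mem_image.2 ⟨f, Finset.mem_univ _, hf.symm⟩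
  refine (Finset.card_le_card h1).trans (Finset.card_image_le.trans ?_)
  rw [Finset.card_univ, Fintype.card_fun, Fintype.card_fin, Fintype.card_coe]

theorem growthE_nonempty {Q : Type} [CommGroup Q] (F : Finset Q) (hF : F.Nonempty) (n : ℕ) :
    (growthE F n).Nonempty := by
  induction n with
  | zero => exact Finset.singleton_nonempty 1
  | succ n ih => exact (ih.product hF).image _

theorem growth {Q : Type} [CommGroup Q] (F : Finset Q) :
    ∃ E : Finset Q, E.Nonempty ∧
      (Finset.image (fun p : Q × Q => p.1 * p.2) (E ×ˢ F)).card < 2 * E.card := by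
  rcases F.eq_empty_or_nonempty with rfl | hF
  · exact ⟨{1}, Finset.singleton_nonempty 1, by simp⟩
  · by_contra hcon
    push Not at hcon
    have hstep : ∀ n, 2 ^ n ≤ (growthE F n).card := by
      intro n
      induction n with
      | zero => exact Finset.card_pos.2 (growthE_nonempty F hF 0)
      | succ n ih =>
        have h1 := hcon (growthE F n) (growthE_nonempty F hF n)
        calc 2 ^ (n + 1) = 2 * 2 ^ n := by ring
          _ ≤ 2 * (growthE F n).card := Nat.mul_le_mul_left 2 ih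
          _ ≤ (growthE F (n + 1)).card := h1
    obtain ⟨n, hn⟩ := growth_exp F.card
    have h1 := (hstep n).trans (growthE_card F n)
    omega

end TN970

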