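import Pool.Agent.Helper970.TN.Defs
import Pool.Agent.Helper970.TN.P_conj_Dc
import Pool.Agent.Helper970.TN.P_RN_mul
import Pool.Agent.Helper970.TN.P_ore



namespace TN970
open scoped Classical


theorem frac_Dc {Γ : Type} [Group Γ] {D : Type} [DivisionRing D] (u : Γ →* Dˣ) (hu : Linnell u)
    (L N : Subgroup Γ) (hL : L.Normal) (hLN : L ≤ N)
    (hab : ∀ x ∈ N, ∀ y ∈ N, x * y * x⁻¹ * y⁻¹ ∈ L) (d : D) (hd : d ∈ Dc u N) :
    ∃ a ∈ RN u L N, a ≠ 0 ∧ a * d ∈ RN u L N := by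
  have hone : (1 : D) ∈ RN u L N :=
    Submodule.subset_span ⟨1, N.one_mem, by simp⟩
  unfold Dc at hd
  induction hd using Subfield.closure_induction with
  | mem x hx =>
    obtain ⟨g, hg, rfl⟩ := hx
    exact ⟨1, hone, one_ne_zero, by
      rw [one_mul]
      exact Submodule.subset_span ⟨g, hg, rfl⟩⟩
  | one => exact ⟨1, hone, one_ne_zero, by rw [one_mul]; exact hone⟩
  | add x y _ _ hx hy =>
    obtain ⟨a1, ha1, ha10, h1⟩ := hx
    obtain ⟨a2, ha2, ha20, h2⟩ := hy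
    obtain ⟨a', ha', c', hc', ha'0, h⟩ := ore u hu L N hL hLN hab a1 a2 ha1 ha2 ha10
    refine ⟨a' * a2, RN_mul u L N hL _ _ ha' ha2, mul_ne_zero ha'0 ha20, ?_⟩
    have e : a' * a2 * (x + y) = c' * (a1 * x) + a' * (a2 * y) := by
      rw [mul_add]
      conv_lhs => rw [h]
      rw [← h]
      simp only [mul_assoc]
      rw [← mul_assoc a' a2 x, h, mul_assoc]
    rw [e]
    exact Submodule.add_mem _ (RN_mul u L N hL _ _ hc' h1) (RN_mul u L N hL _ _ ha' h2)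
  | neg x _ hx =>
    obtain ⟨a, ha, ha0, h⟩ := hx
    exact ⟨a, ha, ha0, by rw [mul_neg]; exact Submodule.neg_mem _ h⟩
  | inv x _ hx =>
    obtain ⟨a, ha, ha0, h⟩ := hx
    by_cases hx0 : x = 0
    · exact ⟨1, hone, one_ne_zero, by rw [hx0, inv_zero, mul_zero]; exact Submodule.zero_mem _⟩
    · refine ⟨a * x, h, mul_ne_zero ha0 hx0, ?_⟩
      rw [mul_assoc, mul_inv_cancel₀ hx0, mul_one]
      exact ha
  | mul x y _ _ hx hy =>
    obtain ⟨a1, ha1, ha10, h1⟩ := hx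
    obtain ⟨a2, ha2, ha20, h2⟩ := hy
    obtain ⟨a', ha', c', hc', ha'0, h⟩ := ore u hu L N hL hLN hab a2 (a1 * x) ha2 h1 ha20
    refine ⟨a' * a1, RN_mul u L N hL _ _ ha' ha1, mul_ne_zero ha'0 ha10, ?_⟩
    have e : a' * a1 * (x * y) = c' * (a2 * y) := by
      rw [← mul_assoc c', ← h]
      simp only [mul_assoc]
    rw [e]
    exact RN_mul u L N hL _ _ hc' h2

end TN970
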