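import Pool.Agent.Helper970.TN.Defs
import Pool.Agent.Helper970.TN.P_conj_Dc
import Pool.Agent.Helper970.TN.P_RN_mul
import Pool.Agent.Helper970.TN.P_ore
import Pool.Agent.Helper970.TN.P_frac_Dc



namespace TN970
open scoped Classical


theorem ff_one {Γ : Type} [Group Γ] {D : Type} [DivisionRing D] (u : Γ →* Dˣ)
    (L N : Subgroup Γ) : (1 : D) ∈ RN u L N :=
  Submodule.subset_span ⟨1, N.one_mem, by simp⟩

theorem ff_dfam {Γ : Type} [Group Γ] {D : Type} [DivisionRing D] (u : Γ →* Dˣ) (hu : Linnell u)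
    (L N : Subgroup Γ) (hL : L.Normal) (hLN : L ≤ N)
    (hab : ∀ x ∈ N, ∀ y ∈ N, x * y * x⁻¹ * y⁻¹ ∈ L) (F : Finset D) (hF : ∀ x ∈ F, x ∈ Dc u N) :
    ∃ a ∈ RN u L N, a ≠ 0 ∧ ∀ x ∈ F, a * x ∈ RN u L N := by
  induction F using Finset.induction_on with
  | empty => exact ⟨1, ff_one u L N, one_ne_zero, by simp⟩
  | insert d F _ ih =>
    obtain ⟨a, ha, ha0, haF⟩ := ih fun x hx => hF x (Finset.mem_insert_of_mem hx)
    obtain ⟨b, hb, hb0, hbd⟩ := frac_Dc u hu L N hL hLN hab d (hF d (Finset.mem_insert_self _ _))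
    obtain ⟨a', ha', c', hc', ha'0, hac⟩ := ore u hu L N hL hLN hab b a hb ha hb0
    refine ⟨a' * a, RN_mul u L N hL _ _ ha' ha, mul_ne_zero ha'0 ha0, ?_⟩
    intro x hx
    rcases Finset.mem_insert.1 hx with rfl | hx
    · rw [hac, mul_assoc]
      exact RN_mul u L N hL _ _ hc' hbd
    · rw [mul_assoc]
      exact RN_mul u L N hL _ _ ha' (haF x hx)

theorem ff_mulg {Γ : Type} [Group Γ] {D : Type} [DivisionRing D] (u : Γ →* Dˣ)
    (L N : Subgroup Γ) (g : Γ) (a : D) (ha : a ∈ RN u L N) : a * ((u g : Dˣ) : D) ∈ SN u L := by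
  unfold RN at ha
  induction ha using Submodule.span_induction with
  | mem x hx =>
    obtain ⟨n, _, rfl⟩ := hx
    have : ((u n : Dˣ) : D) * ((u g : Dˣ) : D) = ((u (n * g) : Dˣ) : D) := by
      rw [map_mul, Units.val_mul]
    rw [this]
    exact Submodule.subset_span ⟨n * g, rfl⟩
  | zero =>
    rw [zero_mul]
    exact Submodule.zero_mem _
  | add x y _ _ hx hy =>
    rw [add_mul]
    exact Submodule.add_mem _ hx hy
  | smul c x _ hx =>
    have : c • x * ((u g : Dˣ) : D) = c • (x * ((u g : Dˣ) : D)) := by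
      change (c : D) * x * _ = (c : D) * (x * _)
      rw [mul_assoc]
    rw [this]
    exact Submodule.smul_mem _ _ hx

theorem ff_s {Γ : Type} [Group Γ] {D : Type} [DivisionRing D] (u : Γ →* Dˣ)
    (L N : Subgroup Γ) (s : D) (hs : s ∈ SN u N) : ∃ F : Finset D, (∀ x ∈ F, x ∈ Dc u N) ∧
      ∀ a, a ∈ RN u L N → (∀ x ∈ F, a * x ∈ RN u L N) → a * s ∈ SN u L := by
  unfold SN at hs
  induction hs using Submodule.span_induction with
  | mem x hx =>
    obtain ⟨g, rfl⟩ := hx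
    exact ⟨∅, by simp, fun a ha _ => ff_mulg u L N g a ha⟩
  | zero =>
    refine ⟨∅, by simp, fun a _ _ => ?_⟩
    rw [mul_zero]
    exact Submodule.zero_mem _
  | add x y _ _ hx hy =>
    obtain ⟨F1, h1, h2⟩ := hx
    obtain ⟨F2, h3, h4⟩ := hy
    refine ⟨F1 ∪ F2, ?_, fun a ha haF => ?_⟩
    · intro x hx
      rcases Finset.mem_union.1 hx with h | h
      · exact h1 x h
      · exact h3 x h
    · rw [mul_add]
      exact Submodule.add_mem _ (h2 a ha fun x hx => haF x (Finset.mem_union_left _ hx))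
        (h4 a ha fun x hx => haF x (Finset.mem_union_right _ hx))
  | smul c x _ hx =>
    obtain ⟨F, h1, h2⟩ := hx
    refine ⟨insert (c : D) (F.image fun x => (c : D) * x), ?_, fun a ha haF => ?_⟩
    · intro y hy
      rcases Finset.mem_insert.1 hy with rfl | hy
      · exact c.2
      · obtain ⟨z, hz, rfl⟩ := Finset.mem_image.1 hy
        exact (Dc u N).mul_mem c.2 (h1 z hz)
    · have h3 := h2 (a * (c : D)) (haF _ (Finset.mem_insert_self _ _)) (fun z hz => by
        rw [mul_assoc]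
        exact haF _ (Finset.mem_insert_of_mem (Finset.mem_image_of_mem _ hz)))
      rw [mul_assoc] at h3
      exact h3

theorem frac_fam {Γ : Type} [Group Γ] {D : Type} [DivisionRing D] (u : Γ →* Dˣ) (hu : Linnell u)
    (L N : Subgroup Γ) (hL : L.Normal) (hLN : L ≤ N)
    (hab : ∀ x ∈ N, ∀ y ∈ N, x * y * x⁻¹ * y⁻¹ ∈ L) {ι κ : Type} [Finite ι] [Finite κ]
    (d : ι → D) (hd : ∀ i, d i ∈ Dc u N) (s : κ → D) (hs : ∀ i, s i ∈ SN u N) :
    ∃ a ∈ RN u L N, a ≠ 0 ∧ (∀ i, a * d i ∈ RN u L N) ∧ (∀ i, a * s i ∈ SN u L) := by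
  classical
  haveI := Fintype.ofFinite ι
  haveI := Fintype.ofFinite κ
  choose F hF1 hF2 using fun i => ff_s u L N (s i) (hs i)
  obtain ⟨a, ha, ha0, haF⟩ := ff_dfam u hu L N hL hLN hab
    (Finset.univ.image d ∪ Finset.univ.biUnion F) (by
      intro x hx
      rcases Finset.mem_union.1 hx with h | h
      · obtain ⟨i, _, rfl⟩ := Finset.mem_image.1 h
        exact hd i
      · obtain ⟨i, _, hi⟩ := Finset.mem_biUnion.1 h
        exact hF1 i x hi)
  refine ⟨a, ha, ha0, fun i => ?_, fun i => ?_⟩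
  · exact haF _ (Finset.mem_union_left _ (Finset.mem_image_of_mem _ (Finset.mem_univ i)))
  · exact hF2 i a ha fun x hx => haF x (Finset.mem_union_right _
      (Finset.mem_biUnion.2 ⟨i, Finset.mem_univ i, hx⟩))
end TN970
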