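import Pool.Agent.Helper970.TN.Defs
import Pool.Agent.Helper970.TN.P_conj_Dc
import Pool.Agent.Helper970.TN.P_RN_mul
import Pool.Agent.Helper970.TN.P_frac_fam



namespace TN970
open scoped Classical


theorem ind_down_SNmul {Γ : Type} [Group Γ] {D : Type} [DivisionRing D] (u : Γ →* Dˣ)
    (L : Subgroup Γ) (hL : L.Normal) (g : Γ) (d : D) (hd : d ∈ SN u L) :
    ((u g : Dˣ) : D) * d ∈ SN u L := by
  unfold SN at hd ⊢
  induction hd using Submodule.span_induction with
  | mem y hy =>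
    obtain ⟨h, rfl⟩ := hy
    apply Submodule.subset_span
    exact ⟨g * h, by simp⟩
  | zero => simp
  | add y z _ _ hy hz => rw [mul_add]; exact Submodule.add_mem _ hy hz
  | smul c y _ hy =>
    have h1 : ((u g : Dˣ) : D) * (c • y)
        = (⟨_, conj_Dc u L hL g c.1 c.2⟩ : Dc u L) • (((u g : Dˣ) : D) * y) := by
      rw [Subfield.smul_def, Subfield.smul_def]
      simp only [smul_eq_mul, map_inv]
      rw [mul_assoc (((u g : Dˣ) : D) * _), ← mul_assoc (((u g)⁻¹ : Dˣ) : D), Units.inv_mul,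
        one_mul, mul_assoc]
    rw [h1]
    exact Submodule.smul_mem _ _ hy

theorem ind_down_Dc_mono {Γ : Type} [Group Γ] {D : Type} [DivisionRing D] (u : Γ →* Dˣ)
    {L N : Subgroup Γ} (hLN : L ≤ N) {d : D} (hd : d ∈ Dc u L) : d ∈ Dc u N := by
  unfold Dc at hd ⊢
  refine Subfield.closure_mono ?_ hd
  rintro y ⟨g, hg, rfl⟩
  exact ⟨g, hLN hg, rfl⟩

theorem ind_down_mem_Dc {Γ : Type} [Group Γ] {D : Type} [DivisionRing D] (u : Γ →* Dˣ)
    {N : Subgroup Γ} {g : Γ} (hg : g ∈ N) : ((u g : Dˣ) : D) ∈ Dc u N := by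
  unfold Dc
  exact Subfield.subset_closure ⟨g, hg, rfl⟩

theorem ind_down_RN_Dc {Γ : Type} [Group Γ] {D : Type} [DivisionRing D] (u : Γ →* Dˣ)
    {L N : Subgroup Γ} (hLN : L ≤ N) {d : D} (hd : d ∈ RN u L N) : d ∈ Dc u N := by
  unfold RN at hd
  induction hd using Submodule.span_induction with
  | mem y hy =>
    obtain ⟨h, hh, rfl⟩ := hy
    exact ind_down_mem_Dc u hh
  | zero => exact (Dc u N).zero_mem
  | add y z _ _ hy hz => exact (Dc u N).add_mem hy hz
  | smul c y _ hy =>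
    rw [Subfield.smul_def, smul_eq_mul]
    exact (Dc u N).mul_mem (ind_down_Dc_mono u hLN c.2) hy

theorem ind_down_SN_mono {Γ : Type} [Group Γ] {D : Type} [DivisionRing D] (u : Γ →* Dˣ)
    {L N : Subgroup Γ} (hLN : L ≤ N) {d : D} (hd : d ∈ SN u L) : d ∈ SN u N := by
  unfold SN at hd ⊢
  induction hd using Submodule.span_induction with
  | mem y hy =>
    exact Submodule.subset_span hy
  | zero => exact Submodule.zero_mem _
  | add y z _ _ hy hz => exact Submodule.add_mem _ hy hz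
  | smul c y _ hy =>
    have h1 : c • y = (⟨c.1, ind_down_Dc_mono u hLN c.2⟩ : Dc u N) • y := by
      rw [Subfield.smul_def, Subfield.smul_def]
    rw [h1]
    exact Submodule.smul_mem _ _ hy

theorem ind_down_pow {Γ : Type} [Group Γ] {D : Type} [DivisionRing D] (u : Γ →* Dˣ)
    (hu : Linnell u) (π : Γ →* Multiplicative (ℤ × ℤ)) (x : Γ)
    (hx0 : ∀ j : ℤ, π (x ^ j) = 1 → j = 0) :
    LinearIndependent (Dc u π.ker) (fun j : ℤ => ((u (x ^ j) : Dˣ) : D)) := by
  have hinj : ∀ i j : ℤ, x ^ i * (x ^ j)⁻¹ ∈ π.ker → i = j := by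
    intro i j h
    rw [← zpow_sub] at h
    have := hx0 (i - j) (MonoidHom.mem_ker.mp h)
    omega
  rw [linearIndependent_iff_finset_linearIndependent]
  intro s
  have h1 := hu π.ker inferInstance (s.image (fun j : ℤ => x ^ j)) (by
    intro g hg h hh hne hk
    rw [Finset.mem_image] at hg hh
    obtain ⟨i, _, rfl⟩ := hg
    obtain ⟨j, _, rfl⟩ := hh
    exact hne (by rw [hinj i j hk]))
  have h2 := h1.comp (fun j : s => (⟨x ^ (j : ℤ), Finset.mem_image_of_mem _ j.2⟩ :
    (s.image (fun j : ℤ => x ^ j) : Finset Γ))) (by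
      intro i j hij
      have h3 : x ^ (i : ℤ) = x ^ (j : ℤ) := by
        have := congrArg Subtype.val hij
        exact this
      apply Subtype.ext
      apply hinj
      rw [h3, mul_inv_cancel]
      exact π.ker.one_mem)
  exact h2

theorem ind_down {Γ : Type} [Group Γ] {D : Type} [DivisionRing D] (u : Γ →* Dˣ) (hu : Linnell u)
    (π : Γ →* Multiplicative (ℤ × ℤ)) {a b c : ℕ}
    (A : Matrix (Fin a) (Fin b) (MonoidAlgebra ℤ Γ)) (B : Matrix (Fin b) (Fin c) (MonoidAlgebra ℤ Γ))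
    (hAB : A * B = 0)
    (S : Semi (Dc u π.ker) (HN u π.ker (A.map (ev u)) (B.map (ev u))) Γ π)
    (hS : ∀ (g : Γ) (v w : ZN u π.ker (B.map (ev u))),
      (∀ i, (w : Fin b → D) i = ((u g : Dˣ) : D) * (v : Fin b → D) i) →
        S.act g (Submodule.Quotient.mk v) = Submodule.Quotient.mk w)
    (N : Subgroup Γ) (hN : N.Normal) (x : Γ) (hx : ∀ g : Γ, g ∈ N ↔ ∃ j : ℤ, π g = π (x ^ j))
    (hx0 : ∀ j : ℤ, π (x ^ j) = 1 → j = 0)
    (r : ℕ) (f' : Fin r → HN u N (A.map (ev u)) (B.map (ev u)))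
    (hf' : LinearIndependent (Dc u N) f') :
    ∃ f : Fin r → HN u π.ker (A.map (ev u)) (B.map (ev u)), XInd S x f := by
  have hLN : π.ker ≤ N := by
    intro g hg
    rw [hx]
    refine ⟨0, ?_⟩
    rw [zpow_zero, map_one]
    exact MonoidHom.mem_ker.mp hg
  have hLnorm : (π.ker).Normal := inferInstance
  have hab : ∀ x ∈ N, ∀ y ∈ N, x * y * x⁻¹ * y⁻¹ ∈ π.ker := by
    intro x _ y _
    rw [MonoidHom.mem_ker]
    simp only [map_mul, map_inv]
    rw [mul_comm (π x) (π y), mul_assoc (π y), mul_inv_cancel, mul_one, mul_inv_cancel]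
  have hxN : ∀ j : ℤ, x ^ j ∈ N := fun j => (hx _).mpr ⟨j, rfl⟩
  choose z hz using fun i => Submodule.Quotient.mk_surjective _ (f' i)
  obtain ⟨e, heR, he0, -, hes⟩ := frac_fam u hu π.ker N hLnorm hLN hab
    (ι := Fin 0) (κ := Fin r × Fin b) (fun i => 0) (fun i => i.elim0)
    (fun p => (z p.1 : Fin b → D) p.2) (fun p => (z p.1).2.1 p.2)
  have heN : e ∈ Dc u N := ind_down_RN_Dc u hLN heR
  have hv : ∀ (i : Fin r) (g : Γ), (fun k => ((u g : Dˣ) : D) * (e * (z i : Fin b → D) k)) ∈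
      ZN u π.ker (B.map (ev u)) := by
    intro i g
    refine ⟨fun k => ind_down_SNmul u π.ker hLnorm g _ (hes (i, k)), ?_⟩
    have h1 : (fun k => ((u g : Dˣ) : D) * (e * (z i : Fin b → D) k)) =
        (((u g : Dˣ) : D) * e) • (z i : Fin b → D) := by
      funext k
      simp [mul_assoc]
    rw [h1, Matrix.smul_vecMul, (z i).2.2, smul_zero]
  refine ⟨fun i => Submodule.Quotient.mk ⟨_, hv i 1⟩, ?_⟩
  have hact : ∀ (i : Fin r) (g : Γ),
      S.act g (Submodule.Quotient.mk ⟨_, hv i 1⟩) = Submodule.Quotient.mk ⟨_, hv i g⟩ := by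
    intro i g
    apply hS
    intro k
    simp
  unfold XInd
  simp only [hact]
  rw [linearIndependent_iff']
  intro s l hl
  -- the relation
  have h2 : (Submodule.Quotient.mk (∑ p ∈ s, l p • (⟨_, hv p.1 (x ^ p.2)⟩ :
      ZN u π.ker (B.map (ev u)))) : HN u π.ker (A.map (ev u)) (B.map (ev u))) = 0 := by
    rw [← hl]
    rw [← Submodule.mkQ_apply, map_sum]
    rfl
  rw [Submodule.Quotient.mk_eq_zero] at h2
  obtain ⟨t, ht, ht2⟩ := h2
  -- coefficients over N
  have hcN : ∀ i : Fin r, (∑ p ∈ s.filter (fun p => p.1 = i),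
      (l p : D) * (((u (x ^ p.2) : Dˣ) : D) * e)) ∈ Dc u N := by
    intro i
    refine Subfield.sum_mem _ (fun p _ => ?_)
    exact (Dc u N).mul_mem (ind_down_Dc_mono u hLN (l p).2)
      ((Dc u N).mul_mem (ind_down_mem_Dc u (hxN _)) heN)
  have h3 : ∑ i : Fin r, (⟨_, hcN i⟩ : Dc u N) • f' i = 0 := by
    have h4 : ∑ i : Fin r, (⟨_, hcN i⟩ : Dc u N) • f' i =
        (Submodule.Quotient.mk (∑ i : Fin r, (⟨_, hcN i⟩ : Dc u N) • z i) :
          HN u N (A.map (ev u)) (B.map (ev u))) := by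
      rw [← Submodule.mkQ_apply, map_sum]
      refine Finset.sum_congr rfl (fun i _ => ?_)
      rw [map_smul, Submodule.mkQ_apply, hz]
    rw [h4, Submodule.Quotient.mk_eq_zero]
    refine ⟨t, fun i => ind_down_SN_mono u hLN (ht i), ?_⟩
    rw [← ht2]
    simp only [Submodule.subtype_apply, Submodule.coe_sum, Submodule.coe_smul]
    funext k
    simp only [Finset.sum_apply, Pi.smul_apply, Subfield.smul_def, smul_eq_mul]
    simp only [Finset.sum_mul]
    rw [← Finset.sum_fiberwise s (fun p => p.1)]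
    refine Finset.sum_congr rfl (fun i _ => Finset.sum_congr rfl (fun p hp => ?_))
    rw [Finset.mem_filter] at hp
    rw [hp.2]
    simp [mul_assoc]
  have h5 := Fintype.linearIndependent_iff.mp hf' _ h3
  intro p hp
  have h6 : (∑ q ∈ s.filter (fun q => q.1 = p.1),
      (l q : D) * (((u (x ^ q.2) : Dˣ) : D) * e)) = 0 := by
    have := congrArg Subtype.val (h5 p.1)
    exact this
  have h7 : (∑ q ∈ s.filter (fun q => q.1 = p.1),
      (l q : D) * ((u (x ^ q.2) : Dˣ) : D)) = 0 := by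
    have h8 : (∑ q ∈ s.filter (fun q => q.1 = p.1),
      (l q : D) * ((u (x ^ q.2) : Dˣ) : D)) * e = 0 := by
      rw [Finset.sum_mul, ← h6]
      exact Finset.sum_congr rfl (fun q _ => by rw [mul_assoc])
    rcases mul_eq_zero.mp h8 with h | h
    · exact h
    · exact absurd h he0
  have h9 := linearIndependent_iff'.mp (ind_down_pow u hu π x hx0)
    ((s.filter (fun q => q.1 = p.1)).image Prod.snd) (fun j => l (p.1, j)) (by
      rw [Finset.sum_image]
      · rw [← h7]
        refine Finset.sum_congr rfl (fun q hq => ?_)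
        rw [Finset.mem_filter] at hq
        rw [Subfield.smul_def, smul_eq_mul, ← hq.2]
      · intro q hq q' hq' hqq
        rw [Finset.mem_coe, Finset.mem_filter] at hq hq'
        exact Prod.ext (hq.2.trans hq'.2.symm) hqq)
    p.2 (Finset.mem_image.mpr ⟨p, Finset.mem_filter.mpr ⟨hp, rfl⟩, rfl⟩)
  exact h9

end TN970
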