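import Pool.Agent.Helper970.TN.Defs



namespace TN970
open scoped Classical


theorem leg1_strip (v w v0 : ℤ × ℤ) (k : ℕ) (hk : 0 < k) (hv : v = (k : ℤ) • v0)
    (hd : 0 < dt v w) (ρ : ℕ) :
    ∃ (Y : Finset (ℤ × ℤ)) (h0 : ℤ × ℤ) (C : ℕ), ∀ n : ℕ,
      leg1 v w ρ n ⊆ strip v0 h0 Y (n * k + C) := by
  have hke : (k : ℤ) * dt v0 w = dt v w := by
    rw [hv]; simp only [dt, Prod.smul_fst, Prod.smul_snd, smul_eq_mul]; ring
  have hkz : (0 : ℤ) < k := by exact_mod_cast hk
  have he : 0 < dt v0 w := by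
    by_contra hcon
    push Not at hcon
    have : (k : ℤ) * dt v0 w ≤ 0 := mul_nonpos_of_nonneg_of_nonpos hkz.le hcon
    omega
  -- the finite set
  have hfin : Set.Finite {h : ℤ × ℤ | |dt v h| ≤ ρ ∧ 0 ≤ dt h w ∧ dt h w < dt v0 w} := by
    apply Set.Finite.of_injOn (f := fun h : ℤ × ℤ => (dt v h, dt h w))
      (t := Set.Icc (-(ρ : ℤ)) ρ ×ˢ Set.Icc (0 : ℤ) (dt v0 w))
    · rintro h ⟨h1, h2, h3⟩
      rw [abs_le] at h1
      exact ⟨⟨h1.1, h1.2⟩, ⟨h2, h3.le⟩⟩
    · intro a _ b _ hab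
      have hab1 : dt v a = dt v b := congrArg Prod.fst hab
      have hab2 : dt a w = dt b w := congrArg Prod.snd hab
      have e1 : ∀ h : ℤ × ℤ, dt v w * h.1 = dt h w * v.1 + dt v h * w.1 := by
        intro h; simp only [dt]; ring
      have e2 : ∀ h : ℤ × ℤ, dt v w * h.2 = dt h w * v.2 + dt v h * w.2 := by
        intro h; simp only [dt]; ring
      apply Prod.ext
      · apply mul_left_cancel₀ hd.ne'
        rw [e1, e1, hab1, hab2]
      · apply mul_left_cancel₀ hd.ne'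
        rw [e2, e2, hab1, hab2]
    · exact (Set.finite_Icc _ _).prod (Set.finite_Icc _ _)
  refine ⟨hfin.toFinset, (-(ρ : ℤ)) • v0, 2 * ρ + 1, ?_⟩
  intro n h hh
  obtain ⟨h1, h2, h3⟩ := hh
  have hdm := Int.emod_add_mul_ediv (dt h w) (dt v0 w)
  have hm0 := Int.emod_nonneg (dt h w) he.ne'
  have hm1 := Int.emod_lt_of_pos (dt h w) he
  set j : ℤ := dt h w / dt v0 w with hj
  have hjlow : -(ρ : ℤ) ≤ j := by
    rw [hj, Int.le_ediv_iff_mul_le he]
    have : (ρ : ℤ) * 1 ≤ ρ * dt v0 w := by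
      apply mul_le_mul_of_nonneg_left _ (by positivity)
      omega
    have h4 : -(ρ : ℤ) * dt v0 w = -(ρ * dt v0 w) := by ring
    rw [h4]; omega
  have hjup : j ≤ n * k + ρ := by
    have h5 : j < n * k + ρ + 1 := by
      rw [hj, Int.ediv_lt_iff_lt_mul he]
      have h6 : (ρ : ℤ) * 1 ≤ ρ * dt v0 w := by
        apply mul_le_mul_of_nonneg_left _ (by positivity)
        omega
      have h7 : ((n : ℤ) * k + ρ + 1) * dt v0 w = n * (k * dt v0 w) + ρ * dt v0 w + dt v0 w := by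
        ring
      rw [h7, hke]; omega
    omega
  refine ⟨(j + ρ).toNat, ?_, h - j • v0, ?_, ?_⟩
  · zify
    rw [Int.toNat_of_nonneg (by omega)]
    omega
  · rw [Set.Finite.mem_toFinset]
    refine ⟨?_, ?_, ?_⟩
    · have : dt v (h - j • v0) = dt v h := by
        rw [hv]; simp only [dt, Prod.smul_fst, Prod.smul_snd, Prod.fst_sub, Prod.snd_sub, smul_eq_mul]; ring
      rw [this]; exact h1
    · have : dt (h - j • v0) w = dt h w - j * dt v0 w := by
        simp only [dt, Prod.smul_fst, Prod.smul_snd, Prod.fst_sub, Prod.snd_sub, smul_eq_mul]; ring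
      rw [this]
      have : dt v0 w * j = j * dt v0 w := by ring
      omega
    · have : dt (h - j • v0) w = dt h w - j * dt v0 w := by
        simp only [dt, Prod.smul_fst, Prod.smul_snd, Prod.fst_sub, Prod.snd_sub, smul_eq_mul]; ring
      rw [this]
      have : dt v0 w * j = j * dt v0 w := by ring
      omega
  · rw [Int.toNat_of_nonneg (by omega)]
    module

end TN970
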