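import Pool.Agent.Helper970.TN.Defs



namespace TN970
open scoped Classical


theorem leg2_strip (v w w0 : ℤ × ℤ) (l : ℕ) (hl : 0 < l) (hw : w = (l : ℤ) • w0)
    (hd : 0 < dt v w) (ρ : ℕ) :
    ∃ (Y : Finset (ℤ × ℤ)) (h0 : ℤ × ℤ) (C : ℕ), ∀ n : ℕ,
      leg2 v w ρ n ⊆ strip w0 ((n : ℤ) • v + h0) Y (n * l + C) := by
  classical
  obtain ⟨v1, v2⟩ := v
  obtain ⟨w01, w02⟩ := w0
  subst hw
  have hlpos : (0 : ℤ) < l := by exact_mod_cast hl
  set e : ℤ := v1 * w02 - v2 * w01 with he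
  have hde : dt (v1, v2) ((l : ℤ) • (w01, w02)) = l * e := by
    simp only [dt, Prod.smul_mk, smul_eq_mul, he]
    ring
  rw [hde] at hd
  have hepos : 0 < e := by
    by_contra hcon
    push Not at hcon
    have := mul_nonpos_of_nonneg_of_nonpos hlpos.le hcon
    linarith
  let f : ℤ × ℤ → ℤ × ℤ := fun y => (dt y ((l : ℤ) • (w01, w02)), dt (v1, v2) y)
  have hf1 : ∀ y, (f y).1 = l * (y.1 * w02 - y.2 * w01) := by
    intro y
    simp only [f, dt, Prod.smul_mk, smul_eq_mul]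
    ring
  have hf2 : ∀ y, (f y).2 = v1 * y.2 - v2 * y.1 := by
    intro y
    simp only [f, dt]
  have hinj : Function.Injective f := by
    intro y z hyz
    have h1 : (f y).1 = (f z).1 := by rw [hyz]
    have h2 : (f y).2 = (f z).2 := by rw [hyz]
    rw [hf1, hf1] at h1
    rw [hf2, hf2] at h2
    have h3 := mul_left_cancel₀ hlpos.ne' h1
    have h4 : y.1 * e = z.1 * e := by
      rw [he]
      linear_combination v1 * h3 + w01 * h2
    have h5 : y.2 * e = z.2 * e := by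
      rw [he]
      linear_combination v2 * h3 + w02 * h2
    exact Prod.ext (mul_right_cancel₀ hepos.ne' h4) (mul_right_cancel₀ hepos.ne' h5)
  have hfin : (f ⁻¹' (Set.Icc (-(ρ : ℤ)) ρ ×ˢ Set.Icc (0 : ℤ) e)).Finite :=
    ((Set.finite_Icc _ _).prod (Set.finite_Icc _ _)).preimage hinj.injOn
  refine ⟨hfin.toFinset, (-(ρ : ℤ)) • (w01, w02), 2 * ρ + 1, ?_⟩
  intro n h hh
  obtain ⟨hh1, hh2, hh3⟩ := hh
  rw [hde] at hh1 hh3
  have hρ0 : (0 : ℤ) ≤ ρ := Int.natCast_nonneg _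
  -- k' = h - n v + ρ w0
  set c : ℤ := dt (v1, v2) h + ρ * e with hc
  have hc0 : 0 ≤ c := by
    have : (ρ : ℤ) * 1 ≤ ρ * e := mul_le_mul_of_nonneg_left (by linarith) hρ0
    linarith
  have hcu : c ≤ ((n : ℤ) * l + 2 * ρ) * e := by
    have : (ρ : ℤ) * 1 ≤ ρ * e := mul_le_mul_of_nonneg_left (by linarith) hρ0
    nlinarith
  have hq0 : 0 ≤ c / e := Int.ediv_nonneg hc0 hepos.le
  have hqu : c / e ≤ (n : ℤ) * l + 2 * ρ := Int.ediv_le_of_le_mul hepos hcu
  refine ⟨(c / e).toNat, ?_, ?_⟩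
  · have h1 : ((c / e).toNat : ℤ) = c / e := Int.toNat_of_nonneg hq0
    zify
    rw [h1]
    linarith
  · refine ⟨h - (((n : ℤ) • (v1, v2) + (-(ρ : ℤ)) • (w01, w02)) + (((c / e).toNat : ℕ) : ℤ) • (w01, w02)), ?_, ?_⟩
    · rw [Set.Finite.mem_toFinset, Set.mem_preimage, Set.mem_prod, hf1, hf2, Set.mem_Icc, Set.mem_Icc,
        Int.toNat_of_nonneg hq0]
      have hm := Int.mul_ediv_add_emod c e
      have hm0 := Int.emod_nonneg c hepos.ne'
      have hm1 := Int.emod_lt_of_pos c hepos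
      rw [abs_le] at hh1
      simp only [dt, Prod.smul_mk, smul_eq_mul] at hh1 hc
      simp only [Prod.smul_mk, smul_eq_mul, Prod.fst_sub, Prod.snd_sub, Prod.mk_add_mk]
      have e1 : (l : ℤ) * ((h.1 - (↑n * v1 + -(ρ : ℤ) * w01 + c / e * w01)) * w02 -
          (h.2 - (↑n * v2 + -(ρ : ℤ) * w02 + c / e * w02)) * w01) =
          (h.1 * (l * w02) - h.2 * (l * w01)) - n * (l * e) := by
        rw [he]; ring
      have e2 : v1 * (h.2 - (↑n * v2 + -(ρ : ℤ) * w02 + c / e * w02)) -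
          v2 * (h.1 - (↑n * v1 + -(ρ : ℤ) * w01 + c / e * w01)) = c - e * (c / e) := by
        rw [hc, he]; ring
      rw [e1, e2]
      refine ⟨⟨?_, ?_⟩, ?_, ?_⟩
      · linarith [hh1.1]
      · linarith [hh1.2]
      · linarith
      · linarith
    · rw [add_sub_cancel]

end TN970
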