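import Pool.Agent.Helper970.TN.Defs



namespace TN970
open scoped Classical


/-- the translates -/
noncomputable def line_bound_v {F : Type} [DivisionRing F] {M : Type} [AddCommGroup M] [Module F M]
    {Γ : Type} [Group Γ] {π : Γ →* Multiplicative (ℤ × ℤ)} (S : Semi F M Γ π) (x : Γ)
    {k : ℕ} (y : Fin k → M) (p : Fin k × ℤ) : M := S.act (x ^ p.2) (y p.1)

theorem line_bound_shift {F : Type} [DivisionRing F] {M : Type} [AddCommGroup M] [Module F M]
    {Γ : Type} [Group Γ] {π : Γ →* Multiplicative (ℤ × ℤ)} (S : Semi F M Γ π) (x : Γ)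
    {k : ℕ} (y : Fin k → M) (a : ℤ) (p : Fin k × ℤ) :
    S.act (x ^ a) (line_bound_v S x y p) = line_bound_v S x y (p.1, p.2 + a) := by
  unfold line_bound_v
  rw [← S.act_mul, ← zpow_add, add_comm a]

theorem line_bound_span {F : Type} [DivisionRing F] {M : Type} [AddCommGroup M] [Module F M]
    {Γ : Type} [Group Γ] {π : Γ →* Multiplicative (ℤ × ℤ)} (S : Semi F M Γ π) (x : Γ)
    {k : ℕ} (y : Fin k → M) (a : ℤ) (A : Set (Fin k × ℤ)) (z : M)
    (hz : z ∈ Submodule.span F (line_bound_v S x y '' A)) :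
    S.act (x ^ a) z ∈ Submodule.span F (line_bound_v S x y '' {p | (p.1, p.2 - a) ∈ A}) := by
  induction hz using Submodule.span_induction with
  | mem z hz =>
    obtain ⟨p, hp, rfl⟩ := hz
    rw [line_bound_shift]
    apply Submodule.subset_span
    refine ⟨(p.1, p.2 + a), ?_, rfl⟩
    show (p.1, p.2 + a - a) ∈ A
    rw [add_sub_cancel_right]
    exact hp
  | zero => rw [map_zero]; exact Submodule.zero_mem _
  | add u w _ _ hu hw => rw [map_add]; exact Submodule.add_mem _ hu hw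
  | smul c u _ hu => rw [S.act_smul]; exact Submodule.smul_mem _ _ hu

theorem line_bound_fin {F : Type} [DivisionRing F] {M : Type} [AddCommGroup M] [Module F M]
    {Γ : Type} [Group Γ] {π : Γ →* Multiplicative (ℤ × ℤ)} (S : Semi F M Γ π) (x : Γ)
    {k : ℕ} (y : Fin k → M) (s0 : Finset (Fin k)) (B : Set (Fin k × ℤ)) (z : M)
    (hz : z ∈ Submodule.span F (line_bound_v S x y '' ((s0 : Set (Fin k)) ×ˢ Set.univ ∪ B))) :
    ∃ E : ℕ, z ∈ Submodule.span F
      (line_bound_v S x y '' ((s0 : Set (Fin k)) ×ˢ Set.Icc (-(E : ℤ)) E ∪ B)) := by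
  obtain ⟨T, hT, hzT⟩ := Submodule.mem_span_finite_of_mem_span hz
  obtain ⟨s', hs', hT'⟩ := Finset.subset_set_image_iff.1 hT
  refine ⟨s'.sup (fun p => p.2.natAbs), ?_⟩
  rw [← hT', Finset.coe_image] at hzT
  refine Submodule.span_mono (Set.image_mono ?_) hzT
  intro p hp
  have hle : p.2.natAbs ≤ s'.sup (fun p => p.2.natAbs) :=
    Finset.le_sup (f := fun p : Fin k × ℤ => p.2.natAbs) hp
  rcases hs' hp with h | h
  · left
    refine ⟨h.1, ?_, ?_⟩
    · have : (p.2.natAbs : ℤ) ≤ ((s'.sup (fun p => p.2.natAbs) : ℕ) : ℤ) := by exact_mod_cast hle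
      omega
    · have : (p.2.natAbs : ℤ) ≤ ((s'.sup (fun p => p.2.natAbs) : ℕ) : ℤ) := by exact_mod_cast hle
      omega
  · right
    exact h

theorem line_bound_dep {F : Type} [DivisionRing F] {M : Type} [AddCommGroup M] [Module F M]
    {Γ : Type} [Group Γ] {π : Γ →* Multiplicative (ℤ × ℤ)} (S : Semi F M Γ π) (x : Γ)
    {k : ℕ} (y : Fin k → M) (s0 : Finset (Fin k)) (i : Fin k) (hi : i ∉ s0)
    (hQ : LinearIndepOn F (line_bound_v S x y) ((s0 : Set (Fin k)) ×ˢ Set.univ))
    (hn : ¬ LinearIndepOn F (line_bound_v S x y)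
      (((insert i s0 : Finset (Fin k)) : Set (Fin k)) ×ˢ Set.univ)) :
    ∃ (l d : ℤ) (E : ℕ), l ≤ d ∧ line_bound_v S x y (i, d) ∈ Submodule.span F
      (line_bound_v S x y '' ((s0 : Set (Fin k)) ×ˢ Set.Icc (-(E : ℤ)) E ∪ {i} ×ˢ Set.Ico l d)) := by
  by_contra hcon
  push Not at hcon
  have hind : ∀ (l : ℤ) (n : ℕ), LinearIndepOn F (line_bound_v S x y)
      ((s0 : Set (Fin k)) ×ˢ Set.univ ∪ {i} ×ˢ Set.Ico l (l + n)) := by
    intro l n
    induction n with
    | zero =>
      have : (Set.Ico l (l + ((0 : ℕ) : ℤ))) = ∅ := by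
        rw [Nat.cast_zero, add_zero, Set.Ico_self]
      rw [this, Set.prod_empty, Set.union_empty]
      exact hQ
    | succ n ih =>
      have hset : ((s0 : Set (Fin k)) ×ˢ Set.univ ∪ {i} ×ˢ Set.Ico l (l + ((n + 1 : ℕ) : ℤ)) :
          Set (Fin k × ℤ)) = insert (i, l + (n : ℤ))
          ((s0 : Set (Fin k)) ×ˢ Set.univ ∪ {i} ×ˢ Set.Ico l (l + (n : ℤ))) := by
        ext ⟨p1, p2⟩
        simp only [Set.mem_union, Set.mem_prod, Set.mem_univ, and_true, Set.mem_singleton_iff,
          Set.mem_Ico, Set.mem_insert_iff, Prod.mk.injEq, Nat.cast_add, Nat.cast_one]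
        constructor
        · rintro (h | ⟨h1, h2, h3⟩)
          · exact Or.inr (Or.inl h)
          · rcases lt_or_eq_of_le (show p2 ≤ l + (n : ℤ) by omega) with h4 | h4
            · exact Or.inr (Or.inr ⟨h1, h2, h4⟩)
            · exact Or.inl ⟨h1, h4⟩
        · rintro (⟨h1, h2⟩ | h | ⟨h1, h2, h3⟩)
          · exact Or.inr ⟨h1, by omega, by omega⟩
          · exact Or.inl h
          · exact Or.inr ⟨h1, h2, by omega⟩
      have hnot : ((i, l + (n : ℤ)) : Fin k × ℤ) ∉
          ((s0 : Set (Fin k)) ×ˢ Set.univ ∪ {i} ×ˢ Set.Ico l (l + (n : ℤ)) : Set (Fin k × ℤ)) := by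
        rintro (h | h)
        · exact hi (Finset.mem_coe.1 h.1)
        · exact absurd h.2.2 (lt_irrefl _)
      rw [hset, linearIndepOn_insert hnot]
      refine ⟨ih, fun hmem => ?_⟩
      obtain ⟨E, hE⟩ := line_bound_fin S x y s0 _ _ hmem
      exact hcon l (l + n) E (by omega) hE
  apply hn
  apply linearIndepOn_of_finite
  intro t ht hft
  obtain ⟨E, hE⟩ : ∃ E : ℕ, ∀ p ∈ t, p.2.natAbs ≤ E := by
    refine ⟨hft.toFinset.sup (fun p => p.2.natAbs), fun p hp => ?_⟩
    exact Finset.le_sup (f := fun p : Fin k × ℤ => p.2.natAbs) (hft.mem_toFinset.2 hp)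
  apply (hind (-(E : ℤ)) (2 * E + 1)).mono
  intro p hp
  have h1 := hE p hp
  have h2 := (ht hp).1
  rcases Finset.mem_insert.1 (Finset.mem_coe.1 h2) with h3 | h3
  · right
    refine ⟨h3, ?_, ?_⟩
    · omega
    · push_cast
      omega
  · left
    exact ⟨Finset.mem_coe.2 h3, Set.mem_univ _⟩

theorem line_bound_step {F : Type} [DivisionRing F] {M : Type} [AddCommGroup M] [Module F M]
    {Γ : Type} [Group Γ] {π : Γ →* Multiplicative (ℤ × ℤ)} (S : Semi F M Γ π) (x : Γ)
    {k : ℕ} (y : Fin k → M) (s0 : Finset (Fin k)) (i : Fin k) (hi : i ∉ s0)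
    (hQ : LinearIndepOn F (line_bound_v S x y) ((s0 : Set (Fin k)) ×ˢ Set.univ))
    (hn : ¬ LinearIndepOn F (line_bound_v S x y)
      (((insert i s0 : Finset (Fin k)) : Set (Fin k)) ×ˢ Set.univ)) :
    ∃ D E : ℕ, ∀ j : ℤ, line_bound_v S x y (i, j) ∈ Submodule.span F
      (line_bound_v S x y '' ((s0 : Set (Fin k)) ×ˢ Set.Icc (j - E) (j + E) ∪
        {i} ×ˢ Set.Ico (j - D) j)) := by
  obtain ⟨l, d, E, hld, hmem⟩ := line_bound_dep S x y s0 i hi hQ hn
  refine ⟨(d - l).toNat, E + d.natAbs, ?_⟩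
  intro j
  have h1 := line_bound_span S x y (j - d) _ _ hmem
  rw [line_bound_shift] at h1
  have h2 : ((i, d).1, (i, d).2 + (j - d)) = ((i, j) : Fin k × ℤ) := by
    simp
  rw [h2] at h1
  refine Submodule.span_mono (Set.image_mono ?_) h1
  rintro ⟨p1, p2⟩ hp
  rcases hp with hp | hp
  · left
    obtain ⟨a1, a2, a3⟩ := hp
    simp only at a2 a3
    refine ⟨a1, ?_, ?_⟩
    · show j - ((E + d.natAbs : ℕ) : ℤ) ≤ p2
      omega
    · show p2 ≤ j + ((E + d.natAbs : ℕ) : ℤ)
      omega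
  · right
    obtain ⟨a1, a2, a3⟩ := hp
    simp only at a2 a3
    refine ⟨a1, ?_, ?_⟩
    · show j - ((d - l).toNat : ℤ) ≤ p2
      omega
    · show p2 < j
      omega

theorem line_bound {F : Type} [DivisionRing F] {M : Type} [AddCommGroup M] [Module F M]
    {Γ : Type} [Group Γ] {π : Γ →* Multiplicative (ℤ × ℤ)} (S : Semi F M Γ π) (x : Γ)
    {k : ℕ} (y : Fin k → M) (β : ℕ)
    (hβ : ∀ s : Finset (Fin k), XInd S x (fun i : s => y i) → s.card ≤ β) :
    ∃ C : ℕ, ∀ m : ℕ,
      Module.finrank F (Submodule.span F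
        (Set.range fun p : Fin k × Fin m => S.act (x ^ (p.2 : ℕ)) (y p.1))) ≤ m * β + C := by
  obtain ⟨Q, hQdef⟩ : ∃ Q : Finset (Fin k) → Prop, Q = fun s : Finset (Fin k) => LinearIndepOn F
    (line_bound_v S x y) ((s : Set (Fin k)) ×ˢ Set.univ) := ⟨_, rfl⟩
  have hQβ : ∀ s, Q s → s.card ≤ β := by
    intro s hs
    apply hβ
    rw [hQdef] at hs
    have hs' : LinearIndependent F (fun p : ((s : Set (Fin k)) ×ˢ Set.univ : Set (Fin k × ℤ)) =>
      line_bound_v S x y p) := hs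
    exact hs'.comp (fun p : s × ℤ => ⟨((p.1 : Fin k), p.2), ⟨p.1.2, Set.mem_univ _⟩⟩) (by
      intro p q hpq
      have h1 := congrArg Subtype.val hpq
      simp only [Prod.mk.injEq] at h1
      exact Prod.ext (Subtype.ext h1.1) h1.2)
  have hQ0 : Q ∅ := by
    rw [hQdef]
    show LinearIndepOn F (line_bound_v S x y) (((∅ : Finset (Fin k)) : Set (Fin k)) ×ˢ Set.univ)
    rw [Finset.coe_empty, Set.empty_prod]
    exact linearIndepOn_empty _ _
  obtain ⟨s0, hs0, hmax⟩ := Finset.exists_max_image (Finset.univ.filter Q) Finset.card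
    ⟨∅, Finset.mem_filter.2 ⟨Finset.mem_univ _, hQ0⟩⟩
  have hQs0 : Q s0 := (Finset.mem_filter.1 hs0).2
  have hins : ∀ i, i ∉ s0 → ¬ Q (insert i s0) := by
    intro i hi hQi
    have := hmax _ (Finset.mem_filter.2 ⟨Finset.mem_univ _, hQi⟩)
    rw [Finset.card_insert_of_notMem hi] at this
    omega
  have hstep : ∀ i, ∃ D E : ℕ, i ∉ s0 → ∀ j : ℤ, line_bound_v S x y (i, j) ∈ Submodule.span F
      (line_bound_v S x y '' ((s0 : Set (Fin k)) ×ˢ Set.Icc (j - E) (j + E) ∪
        {i} ×ˢ Set.Ico (j - D) j)) := by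
    intro i
    by_cases hi : i ∈ s0
    · exact ⟨0, 0, fun h => absurd hi h⟩
    · have hQ1 := hQs0
      have hQ2 := hins i hi
      rw [hQdef] at hQ1 hQ2
      obtain ⟨D, E, h⟩ := line_bound_step S x y s0 i hi hQ1 hQ2
      exact ⟨D, E, fun _ => h⟩
  choose Di Ei hDE using hstep
  obtain ⟨D, hD⟩ : ∃ D : ℕ, ∀ i, Di i ≤ D :=
    ⟨Finset.univ.sup Di, fun i => Finset.le_sup (Finset.mem_univ i)⟩
  obtain ⟨E, hE⟩ : ∃ E : ℕ, ∀ i, Ei i ≤ E :=
    ⟨Finset.univ.sup Ei, fun i => Finset.le_sup (Finset.mem_univ i)⟩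
  refine ⟨k * D + β * (2 * E + 1), ?_⟩
  intro m
  obtain ⟨G, hG⟩ : ∃ G : Finset (Fin k × ℤ), G = (Finset.univ ×ˢ Finset.Ico (0 : ℤ) D) ∪
    (s0 ×ˢ Finset.Icc (-(E : ℤ)) (m + E)) := ⟨_, rfl⟩
  have hGcard : G.card ≤ k * D + s0.card * (m + 2 * E + 1) := by
    rw [hG]
    refine (Finset.card_union_le _ _).trans ?_
    rw [Finset.card_product, Finset.card_product, Finset.card_univ, Fintype.card_fin, Int.card_Ico,
      Int.card_Icc]
    have e1 : ((D : ℤ) - 0).toNat = D := by omega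
    have e2 : ((m : ℤ) + E + 1 - -(E : ℤ)).toNat = m + 2 * E + 1 := by omega
    rw [e1, e2]
  have hmemG : ∀ (j : ℕ), j < m → ∀ i, line_bound_v S x y (i, (j : ℤ)) ∈
      Submodule.span F (line_bound_v S x y '' (G : Set (Fin k × ℤ))) := by
    intro j
    induction j using Nat.strong_induction_on with
    | _ j ih =>
      intro hj i
      by_cases hi : i ∈ s0
      · apply Submodule.subset_span
        refine ⟨(i, (j : ℤ)), ?_, rfl⟩
        rw [hG, Finset.mem_coe, Finset.mem_union]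
        right
        rw [Finset.mem_product, Finset.mem_Icc]
        exact ⟨hi, by show -(E : ℤ) ≤ (j : ℤ); omega, by show (j : ℤ) ≤ m + E; omega⟩
      · by_cases hjD : j < D
        · apply Submodule.subset_span
          refine ⟨(i, (j : ℤ)), ?_, rfl⟩
          rw [hG, Finset.mem_coe, Finset.mem_union]
          left
          rw [Finset.mem_product, Finset.mem_Ico]
          exact ⟨Finset.mem_univ _, by show (0 : ℤ) ≤ (j : ℤ); omega,
            by show (j : ℤ) < D; omega⟩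
        · have h1 := hDE i hi (j : ℤ)
          refine (Submodule.span_le.2 ?_) h1
          rintro _ ⟨⟨p1, p2⟩, hp, rfl⟩
          rcases hp with ⟨a1, a2, a3⟩ | ⟨a1, a2, a3⟩
          · apply Submodule.subset_span
            refine ⟨(p1, p2), ?_, rfl⟩
            rw [hG, Finset.mem_coe, Finset.mem_union]
            right
            rw [Finset.mem_product, Finset.mem_Icc]
            have hEi := hE i
            simp only at a2 a3
            exact ⟨Finset.mem_coe.1 a1, by show -(E : ℤ) ≤ p2; omega, by show p2 ≤ m + E; omega⟩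
          · have hDi := hD i
            simp only at a2 a3
            have a1' : p1 = i := a1
            obtain ⟨q, rfl⟩ : ∃ q : ℕ, p2 = (q : ℤ) := ⟨p2.toNat, by omega⟩
            rw [a1']
            exact ih q (by omega) (by omega) i
  have hsub : Submodule.span F (Set.range fun p : Fin k × Fin m => S.act (x ^ (p.2 : ℕ)) (y p.1)) ≤
      Submodule.span F (((G.image (line_bound_v S x y) : Finset M)) : Set M) := by
    rw [Submodule.span_le]
    rintro _ ⟨⟨i, j⟩, rfl⟩
    have h1 := hmemG j j.2 i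
    rw [Finset.coe_image]
    have h2 : line_bound_v S x y (i, ((j : ℕ) : ℤ)) = S.act (x ^ (j : ℕ)) (y i) := by
      unfold line_bound_v
      show S.act (x ^ ((j : ℕ) : ℤ)) (y i) = _
      rw [zpow_natCast]
    show S.act (x ^ (j : ℕ)) (y i) ∈ Submodule.span F (line_bound_v S x y '' (G : Set (Fin k × ℤ)))
    rw [← h2]
    exact h1
  have h1 := Submodule.finrank_mono hsub
  have h2 := finrank_span_finset_le_card (R := F) (G.image (line_bound_v S x y))
  have h3 : (G.image (line_bound_v S x y)).card ≤ G.card := Finset.card_image_le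
  have h4 : s0.card * (m + 2 * E + 1) ≤ β * (m + 2 * E + 1) :=
    Nat.mul_le_mul_right _ (hQβ s0 hQs0)
  have h5 : Module.finrank F (Submodule.span F
      (((G.image (line_bound_v S x y) : Finset M)) : Set M)) ≤
      (G.image (line_bound_v S x y)).card := h2
  calc _ ≤ _ := h1
    _ ≤ _ := h5
    _ ≤ _ := h3
    _ ≤ _ := hGcard
    _ ≤ k * D + β * (m + 2 * E + 1) := by omega
    _ = m * β + (k * D + β * (2 * E + 1)) := by ring

end TN970
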