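import Pool.Agent.Helper970.TN.Defs
import Pool.Agent.Helper970.TN.P_leg1_strip
import Pool.Agent.Helper970.TN.P_leg2_strip
import Pool.Agent.Helper970.TN.P_sp_fill
import Pool.Agent.Helper970.TN.P_sp_strip



namespace TN970
open scoped Classical


theorem main_ineq {F : Type} [DivisionRing F] {M : Type} [AddCommGroup M] [Module F M]
    {Γ : Type} [Group Γ] {π : Γ →* Multiplicative (ℤ × ℤ)} (S : Semi F M Γ π)
    (hsurj : Function.Surjective π) {b : ℕ} (m : Fin b → M)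
    (htor : ∀ i : Fin b, ∃ (N : Finset Γ) (c : Γ → F), N.Nonempty ∧ (∀ g ∈ N, c g ≠ 0) ∧
      (∀ g ∈ N, ∀ h ∈ N, π g = π h → g = h) ∧ ∑ g ∈ N, c g • S.act g (m i) = 0)
    (v w v0 w0 z0 : ℤ × ℤ) (k l q : ℕ) (hk : 0 < k) (hl : 0 < l) (hq : 0 < q)
    (hv : v = (k : ℤ) • v0) (hw : w = (l : ℤ) • w0) (hz : v + w = (q : ℤ) • z0)
    (hd : 0 < dt v w) (x y z : Γ)
    (hx : Multiplicative.toAdd (π x) = v0) (hy : Multiplicative.toAdd (π y) = w0)
    (hzz : Multiplicative.toAdd (π z) = z0) (β1 β2 : ℕ)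
    (hβ1 : ∀ (r : ℕ) (f : Fin r → M), XInd S x f → r ≤ β1)
    (hβ2 : ∀ (r : ℕ) (f : Fin r → M), XInd S y f → r ≤ β2)
    (hm : XInd S z m) : q * b ≤ k * β1 + l * β2 := by
  obtain ⟨ρ, hfill⟩ := sp_fill S hsurj m htor v w hd
  obtain ⟨Y1, h1, C1, hleg1⟩ := leg1_strip v w v0 k hk hv hd ρ
  obtain ⟨Y2, h2, C2, hleg2⟩ := leg2_strip v w w0 l hl hw hd ρ
  obtain ⟨D1, hD1⟩ := sp_strip S hsurj m x v0 hx β1 hβ1 Y1
  obtain ⟨D2, hD2⟩ := sp_strip S hsurj m y w0 hy β2 hβ2 Y2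
  have hmono : ∀ Ω Ω' : Set (ℤ × ℤ), Ω ⊆ Ω' → Sp S m Ω ≤ Sp S m Ω' := by
    intro Ω Ω' hΩ
    apply Submodule.span_mono
    rintro t ⟨g, i, hg, rfl⟩
    exact ⟨g, i, hΩ hg, rfl⟩
  have hqz : (0 : ℤ) < q := by exact_mod_cast hq
  have e1 : (q : ℤ) * dt v z0 = dt v w := by
    have : dt v (v + w) = dt v ((q : ℤ) • z0) := by rw [hz]
    simp only [dt, Prod.smul_fst, Prod.smul_snd, Prod.fst_add, Prod.snd_add, smul_eq_mul] at this ⊢
    linarith
  have e2 : (q : ℤ) * dt z0 w = dt v w := by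
    have : dt (v + w) w = dt ((q : ℤ) • z0) w := by rw [hz]
    simp only [dt, Prod.smul_fst, Prod.smul_snd, Prod.fst_add, Prod.snd_add, smul_eq_mul] at this ⊢
    linarith
  have e3 : dt v z0 = dt z0 w := by
    apply mul_left_cancel₀ hqz.ne'
    rw [e1, e2]
  have e4 : 0 < dt z0 w := by
    by_contra hcon
    push Not at hcon
    have : (q : ℤ) * dt z0 w ≤ 0 := mul_nonpos_of_nonneg_of_nonpos hqz.le hcon
    omega
  have key : ∀ n : ℕ, n * q * b ≤ ((n * k + C1) * β1 + D1) + ((n * l + C2) * β2 + D2) := by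
    intro n
    obtain ⟨hf1, hr1⟩ := hD1 h1 (n * k + C1)
    obtain ⟨hf2, hr2⟩ := hD2 ((n : ℤ) • v + h2) (n * l + C2)
    set W1 := Sp S m (strip v0 h1 Y1 (n * k + C1)) with hW1
    set W2 := Sp S m (strip w0 ((n : ℤ) • v + h2) Y2 (n * l + C2)) with hW2
    have hle : Sp S m (tri v w n) ≤ W1 ⊔ W2 :=
      (hfill n).trans (sup_le_sup (hmono _ _ (hleg1 n)) (hmono _ _ (hleg2 n)))
    let f : Fin b × Fin (n * q) → M := fun p => S.act (z ^ ((p.2 : ℕ) : ℤ)) (m p.1)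
    have hf : LinearIndependent F f := by
      have := LinearIndependent.comp hm (fun p : Fin b × Fin (n * q) => (p.1, ((p.2 : ℕ) : ℤ))) (by
        rintro ⟨a, c⟩ ⟨a', c'⟩ hac
        simp only [Prod.mk.injEq, Nat.cast_inj] at hac
        exact Prod.ext hac.1 (Fin.ext hac.2))
      exact this
    have hmem : ∀ p, f p ∈ W1 ⊔ W2 := by
      intro p
      apply hle
      apply Submodule.subset_span
      refine ⟨z ^ ((p.2 : ℕ) : ℤ), p.1, ?_, rfl⟩
      rw [map_zpow, toAdd_zpow, hzz]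
      have hp : ((p.2 : ℕ) : ℤ) < n * q := by exact_mod_cast p.2.2
      have hp0 : (0 : ℤ) ≤ ((p.2 : ℕ) : ℤ) := by positivity
      generalize ((p.2 : ℕ) : ℤ) = j at hp hp0
      have g1 : dt v (j • z0) = j * dt z0 w := by
        rw [← e3]; simp only [dt, Prod.smul_fst, Prod.smul_snd, smul_eq_mul]; ring
      have g2 : dt (j • z0) w = j * dt z0 w := by
        simp only [dt, Prod.smul_fst, Prod.smul_snd, smul_eq_mul]; ring
      refine ⟨?_, ?_, ?_⟩
      · rw [g1]; positivity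
      · rw [g1, g2]
      · rw [g2, ← e2]
        have : j * dt z0 w ≤ (n * q) * dt z0 w := mul_le_mul_of_nonneg_right hp.le e4.le
        linarith
    let f' : Fin b × Fin (n * q) → ↥(W1 ⊔ W2) := fun p => ⟨f p, hmem p⟩
    have hf' : LinearIndependent F f' := by
      apply LinearIndependent.of_comp (W1 ⊔ W2).subtype
      exact hf
    have hcard := hf'.fintype_card_le_finrank
    have hsup := Submodule.finrank_add_le_finrank_add_finrank W1 W2
    simp only [Fintype.card_prod, Fintype.card_fin] at hcard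
    calc n * q * b = b * (n * q) := by ring
      _ ≤ _ := hcard
      _ ≤ _ := hsup
      _ ≤ _ := add_le_add hr1 hr2
  by_contra hcon
  push Not at hcon
  have hk2 := key (C1 * β1 + D1 + C2 * β2 + D2 + 1)
  generalize hK : C1 * β1 + D1 + C2 * β2 + D2 = K at hk2
  have h3 : (K + 1) * (k * β1 + l * β2 + 1) ≤ (K + 1) * (q * b) := Nat.mul_le_mul_left _ hcon
  nlinarith

end TN970
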