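import Pool.Agent.Helper970.TN.Defs
import Pool.Agent.Helper970.TN.P_conj_Dc



namespace TN970
open scoped Classical


theorem semi_HN_inv {Γ : Type} [Group Γ] {D : Type} [DivisionRing D] (u : Γ →* Dˣ) (g : Γ) :
    ((u g⁻¹ : Dˣ) : D) * ((u g : Dˣ) : D) = 1 := by
  rw [← Units.val_mul, ← map_mul, inv_mul_cancel, map_one, Units.val_one]

theorem semi_HN_inv' {Γ : Type} [Group Γ] {D : Type} [DivisionRing D] (u : Γ →* Dˣ) (g : Γ) :
    ((u g : Dˣ) : D) * ((u g⁻¹ : Dˣ) : D) = 1 := by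
  rw [← Units.val_mul, ← map_mul, mul_inv_cancel, map_one, Units.val_one]

/-- conjugation -/
noncomputable def semi_HN_sig {Γ : Type} [Group Γ] {D : Type} [DivisionRing D] (u : Γ →* Dˣ)
    (L : Subgroup Γ) (hL : L.Normal) (g : Γ) : Dc u L →+* Dc u L where
  toFun d := ⟨((u g : Dˣ) : D) * (d : D) * ((u g⁻¹ : Dˣ) : D), conj_Dc u L hL g d d.2⟩
  map_one' := by
    apply Subtype.ext
    show ((u g : Dˣ) : D) * (1 : D) * ((u g⁻¹ : Dˣ) : D) = 1
    rw [mul_one, semi_HN_inv']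
  map_mul' x y := by
    apply Subtype.ext
    show ((u g : Dˣ) : D) * ((x : D) * (y : D)) * ((u g⁻¹ : Dˣ) : D) =
      (((u g : Dˣ) : D) * (x : D) * ((u g⁻¹ : Dˣ) : D)) *
        (((u g : Dˣ) : D) * (y : D) * ((u g⁻¹ : Dˣ) : D))
    calc ((u g : Dˣ) : D) * ((x : D) * (y : D)) * ((u g⁻¹ : Dˣ) : D)
        = ((u g : Dˣ) : D) * (x : D) * 1 * (y : D) * ((u g⁻¹ : Dˣ) : D) := by
          rw [mul_one, ← mul_assoc]
      _ = _ := by
          rw [← semi_HN_inv u g]
          simp only [mul_assoc]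
  map_zero' := by
    apply Subtype.ext
    show ((u g : Dˣ) : D) * (0 : D) * ((u g⁻¹ : Dˣ) : D) = 0
    rw [mul_zero, zero_mul]
  map_add' x y := by
    apply Subtype.ext
    show ((u g : Dˣ) : D) * ((x : D) + (y : D)) * ((u g⁻¹ : Dˣ) : D) =
      (((u g : Dˣ) : D) * (x : D) * ((u g⁻¹ : Dˣ) : D)) +
        (((u g : Dˣ) : D) * (y : D) * ((u g⁻¹ : Dˣ) : D))
    rw [mul_add, add_mul]

theorem semi_HN_sig_mul {Γ : Type} [Group Γ] {D : Type} [DivisionRing D] (u : Γ →* Dˣ)
    (L : Subgroup Γ) (hL : L.Normal) (g : Γ) (d : Dc u L) (x : D) :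
    ((u g : Dˣ) : D) * ((d : D) * x) =
      ((semi_HN_sig u L hL g d : Dc u L) : D) * (((u g : Dˣ) : D) * x) := by
  show ((u g : Dˣ) : D) * ((d : D) * x) =
    (((u g : Dˣ) : D) * (d : D) * ((u g⁻¹ : Dˣ) : D)) * (((u g : Dˣ) : D) * x)
  calc ((u g : Dˣ) : D) * ((d : D) * x) = ((u g : Dˣ) : D) * (d : D) * 1 * x := by
        rw [mul_one, mul_assoc]
    _ = _ := by
        rw [← semi_HN_inv u g]
        simp only [mul_assoc]

theorem semi_HN_SN {Γ : Type} [Group Γ] {D : Type} [DivisionRing D] (u : Γ →* Dˣ)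
    (L : Subgroup Γ) (hL : L.Normal) (g : Γ) (x : D) (hx : x ∈ SN u L) :
    ((u g : Dˣ) : D) * x ∈ SN u L := by
  unfold SN at hx ⊢
  induction hx using Submodule.span_induction with
  | mem x h =>
    obtain ⟨k, rfl⟩ := h
    refine Submodule.subset_span ⟨g * k, ?_⟩
    show ((u (g * k) : Dˣ) : D) = _
    rw [map_mul, Units.val_mul]
  | zero => rw [mul_zero]; exact Submodule.zero_mem _
  | add x y _ _ h1 h2 => rw [mul_add]; exact Submodule.add_mem _ h1 h2
  | smul d x _ h =>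
    have e : ((u g : Dˣ) : D) * (d • x) = (semi_HN_sig u L hL g d) • (((u g : Dˣ) : D) * x) :=
      semi_HN_sig_mul u L hL g d x
    rw [e]
    exact Submodule.smul_mem _ _ h

/-- the semilinear map on cycles -/
noncomputable def semi_HN_f {Γ : Type} [Group Γ] {D : Type} [DivisionRing D] (u : Γ →* Dˣ)
    (L : Subgroup Γ) (hL : L.Normal) {b c : ℕ} (B : Matrix (Fin b) (Fin c) D) (g : Γ) :
    ZN u L B →ₛₗ[semi_HN_sig u L hL g] ZN u L B where
  toFun v := ⟨((u g : Dˣ) : D) • (v : Fin b → D), by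
    refine ⟨fun i => semi_HN_SN u L hL g _ (v.2.1 i), ?_⟩
    rw [Matrix.smul_vecMul, v.2.2, smul_zero]⟩
  map_add' v w := by
    apply Subtype.ext
    show ((u g : Dˣ) : D) • ((v : Fin b → D) + (w : Fin b → D)) = _
    rw [smul_add]
    rfl
  map_smul' d v := by
    apply Subtype.ext
    funext i
    exact semi_HN_sig_mul u L hL g d ((v : Fin b → D) i)

theorem semi_HN_le {Γ : Type} [Group Γ] {D : Type} [DivisionRing D] (u : Γ →* Dˣ)
    (L : Subgroup Γ) (hL : L.Normal) {a b c : ℕ} (A : Matrix (Fin a) (Fin b) D)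
    (B : Matrix (Fin b) (Fin c) D) (g : Γ) :
    (BN u L A).submoduleOf (ZN u L B) ≤
      ((BN u L A).submoduleOf (ZN u L B)).comap (semi_HN_f u L hL B g) := by
  intro v hv
  obtain ⟨w, h1, h2⟩ := hv
  refine ⟨((u g : Dˣ) : D) • w, fun i => semi_HN_SN u L hL g _ (h1 i), ?_⟩
  rw [Matrix.smul_vecMul, ← h2]
  rfl

theorem semi_HN {Γ : Type} [Group Γ] {D : Type} [DivisionRing D] (u : Γ →* Dˣ)
    (π : Γ →* Multiplicative (ℤ × ℤ)) {a b c : ℕ}
    (A : Matrix (Fin a) (Fin b) D) (B : Matrix (Fin b) (Fin c) D) :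
    ∃ S : Semi (Dc u π.ker) (HN u π.ker A B) Γ π,
      ∀ (g : Γ) (v w : ZN u π.ker B), (∀ i, (w : Fin b → D) i = ((u g : Dˣ) : D) * (v : Fin b → D) i) →
        S.act g (Submodule.Quotient.mk v) = Submodule.Quotient.mk w := by
  have hL : π.ker.Normal := MonoidHom.normal_ker π
  refine ⟨{ act := fun g => (Submodule.mapQ _ _ (semi_HN_f u π.ker hL B g)
              (semi_HN_le u π.ker hL A B g)).toAddMonoidHom
            act_one := ?_
            act_mul := ?_
            sig := fun g => semi_HN_sig u π.ker hL g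
            act_smul := ?_
            ker_scalar := ?_ }, ?_⟩
  · intro m
    obtain ⟨v, rfl⟩ := Submodule.Quotient.mk_surjective _ m
    show Submodule.Quotient.mk (semi_HN_f u π.ker hL B 1 v) = _
    congr 1
    apply Subtype.ext
    funext i
    show ((u 1 : Dˣ) : D) * (v : Fin b → D) i = _
    rw [map_one, Units.val_one, one_mul]
  · intro g h m
    obtain ⟨v, rfl⟩ := Submodule.Quotient.mk_surjective _ m
    show Submodule.Quotient.mk (semi_HN_f u π.ker hL B (g * h) v) =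
      Submodule.Quotient.mk (semi_HN_f u π.ker hL B g (semi_HN_f u π.ker hL B h v))
    congr 1
    apply Subtype.ext
    funext i
    show ((u (g * h) : Dˣ) : D) * (v : Fin b → D) i =
      ((u g : Dˣ) : D) * (((u h : Dˣ) : D) * (v : Fin b → D) i)
    rw [map_mul, Units.val_mul, mul_assoc]
  · intro g f m
    exact LinearMap.map_smulₛₗ (Submodule.mapQ _ _ (semi_HN_f u π.ker hL B g)
      (semi_HN_le u π.ker hL A B g)) f m
  · intro g hg m
    obtain ⟨v, rfl⟩ := Submodule.Quotient.mk_surjective _ m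
    have hmem : ((u g : Dˣ) : D) ∈ Dc u π.ker := Subfield.subset_closure ⟨g, hg, rfl⟩
    refine ⟨⟨((u g : Dˣ) : D), hmem⟩, ?_, ?_⟩
    · intro h
      exact (u g).ne_zero (congrArg Subtype.val h)
    · rfl
  · intro g v w hvw
    show Submodule.Quotient.mk (semi_HN_f u π.ker hL B g v) = _
    congr 1
    apply Subtype.ext
    funext i
    exact (hvw i).symm

end TN970
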