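import Pool.Agent.Helper970.TN.Defs



namespace TN970
open scoped Classical


theorem ps_dvd {Γ : Type} [Group Γ] (φ : Γ →* Multiplicative ℤ) (N : Subgroup Γ) :
    ∃ a : ℤ, (∃ g ∈ N, Multiplicative.toAdd (φ g) = a) ∧
      ∀ g ∈ N, a ∣ Multiplicative.toAdd (φ g) := by
  let H : AddSubgroup ℤ :=
    { carrier := {n | ∃ g ∈ N, Multiplicative.toAdd (φ g) = n}
      add_mem' := by
        rintro _ _ ⟨g, hg, rfl⟩ ⟨h, hh, rfl⟩
        exact ⟨g * h, N.mul_mem hg hh, by simp⟩
      zero_mem' := ⟨1, N.one_mem, by simp⟩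
      neg_mem' := by
        rintro _ ⟨g, hg, rfl⟩
        exact ⟨g⁻¹, N.inv_mem hg, by simp⟩ }
  obtain ⟨a, ha⟩ := Int.subgroup_cyclic H
  refine ⟨a, ?_, fun g hg => ?_⟩
  · have : a ∈ H := by rw [ha]; exact AddSubgroup.subset_closure rfl
    exact this
  · have : Multiplicative.toAdd (φ g) ∈ H := ⟨g, hg, rfl⟩
    rw [ha, AddSubgroup.mem_closure_singleton] at this
    obtain ⟨n, hn⟩ := this
    exact ⟨n, by rw [← hn, smul_eq_mul, mul_comm]⟩

theorem ps_quot {Γ : Type} [Group Γ] (φ : Γ →* Multiplicative ℤ) (a : ℤ) (ha : a ≠ 0)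
    (h : ∀ g, a ∣ Multiplicative.toAdd (φ g)) :
    ∃ χ : Γ →* Multiplicative ℤ, ∀ g, Multiplicative.toAdd (φ g) =
      a * Multiplicative.toAdd (χ g) := by
  refine ⟨{ toFun := fun g => Multiplicative.ofAdd (Multiplicative.toAdd (φ g) / a)
            map_one' := by simp
            map_mul' := fun g h' => ?_ }, fun g => ?_⟩
  · rw [← ofAdd_add, map_mul, toAdd_mul, Int.add_ediv_of_dvd_left (h g)]
  · simp only [MonoidHom.coe_mk, OneHom.coe_mk, toAdd_ofAdd]
    exact (Int.mul_ediv_cancel' (h g)).symm

theorem ps_zpow {Γ : Type} [Group Γ] (φ χ : Γ →* Multiplicative ℤ) (a : ℤ)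
    (h : ∀ g, Multiplicative.toAdd (φ g) = a * Multiplicative.toAdd (χ g)) : φ = χ ^ a := by
  refine MonoidHom.ext fun g => ?_
  apply Multiplicative.toAdd.injective
  rw [h g]
  have : (χ ^ a) g = (χ g) ^ a := rfl
  rw [this, toAdd_zpow, smul_eq_mul]

theorem ps_surj {Γ : Type} [Group Γ] (χ : Γ →* Multiplicative ℤ) (g : Γ)
    (h : Multiplicative.toAdd (χ g) = 1) : Function.Surjective χ := by
  intro n
  refine ⟨g ^ (Multiplicative.toAdd n), ?_⟩
  apply Multiplicative.toAdd.injective
  rw [map_zpow, toAdd_zpow, h, smul_eq_mul, mul_one]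

theorem pair_structure {Γ : Type} [Group Γ] (φ ψ : Γ →* Multiplicative ℤ) :
    (φ = 1 ∧ ψ = 1) ∨
    (∃ (χ : Γ →* Multiplicative ℤ) (k l : ℤ), Function.Surjective χ ∧ φ = χ ^ k ∧ ψ = χ ^ l) ∨
    (∃ (π : Γ →* Multiplicative (ℤ × ℤ)) (v w : ℤ × ℤ), Function.Surjective π ∧ dt v w ≠ 0 ∧
      φ = phv π v ∧ ψ = phv π w) := by
  obtain ⟨a, ⟨ga, -, hga⟩, hda⟩ := ps_dvd φ ⊤
  by_cases ha : a = 0
  · have hφ : ∀ g, Multiplicative.toAdd (φ g) = 0 := fun g => by
      have := hda g (Subgroup.mem_top g)
      rw [ha] at this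
      exact zero_dvd_iff.1 this
    obtain ⟨b, ⟨gb, -, hgb⟩, hdb⟩ := ps_dvd ψ ⊤
    by_cases hb : b = 0
    · left
      have hψ : ∀ g, Multiplicative.toAdd (ψ g) = 0 := fun g => by
        have := hdb g (Subgroup.mem_top g)
        rw [hb] at this
        exact zero_dvd_iff.1 this
      constructor
      · refine MonoidHom.ext fun g => ?_
        exact Multiplicative.toAdd.injective (hφ g)
      · refine MonoidHom.ext fun g => ?_
        exact Multiplicative.toAdd.injective (hψ g)
    · right; left
      obtain ⟨χ, hχ⟩ := ps_quot ψ b hb (fun g => hdb g (Subgroup.mem_top g))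
      refine ⟨χ, 0, b, ps_surj χ gb ?_, ps_zpow φ χ 0 (fun g => by rw [hφ g]; ring),
        ps_zpow ψ χ b hχ⟩
      have := hχ gb
      rw [hgb] at this
      have h2 : b * (Multiplicative.toAdd (χ gb) - 1) = 0 := by linarith
      rcases mul_eq_zero.1 h2 with h3 | h3
      · exact absurd h3 hb
      · linarith
  · obtain ⟨α, hα⟩ := ps_quot φ a ha (fun g => hda g (Subgroup.mem_top g))
    have hα1 : Multiplicative.toAdd (α ga) = 1 := by
      have := hα ga
      rw [hga] at this
      have h2 : a * (Multiplicative.toAdd (α ga) - 1) = 0 := by linarith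
      rcases mul_eq_zero.1 h2 with h3 | h3
      · exact absurd h3 ha
      · linarith
    set l : ℤ := Multiplicative.toAdd (ψ ga) with hl
    obtain ⟨c, ⟨gc, hgcK, hgc⟩, hdc⟩ := ps_dvd ψ α.ker
    -- the difference `ψ - l α`
    let δ : Γ →* Multiplicative ℤ :=
      { toFun := fun g => Multiplicative.ofAdd
          (Multiplicative.toAdd (ψ g) - l * Multiplicative.toAdd (α g))
        map_one' := by simp
        map_mul' := fun g h => by
          rw [← ofAdd_add, map_mul ψ, map_mul α, toAdd_mul, toAdd_mul]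
          congr 1
          ring }
    have hδ : ∀ g, Multiplicative.toAdd (δ g) =
        Multiplicative.toAdd (ψ g) - l * Multiplicative.toAdd (α g) := fun g => rfl
    have hdδ : ∀ g, c ∣ Multiplicative.toAdd (δ g) := by
      intro g
      have hk : g * ga ^ (-(Multiplicative.toAdd (α g))) ∈ α.ker := by
        rw [MonoidHom.mem_ker]
        apply Multiplicative.toAdd.injective
        rw [map_mul, map_zpow, toAdd_mul, toAdd_zpow, hα1]
        simp
      have := hdc _ hk
      rw [map_mul, map_zpow, toAdd_mul, toAdd_zpow, ← hl, smul_eq_mul] at this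
      rw [hδ]
      convert this using 1
      ring
    by_cases hc : c = 0
    · right; left
      refine ⟨α, a, l, ps_surj α ga hα1, ps_zpow φ α a hα, ps_zpow ψ α l (fun g => ?_)⟩
      have := hdδ g
      rw [hc, zero_dvd_iff, hδ] at this
      linarith
    · right; right
      obtain ⟨β, hβ⟩ := ps_quot δ c hc hdδ
      have hβa : Multiplicative.toAdd (β ga) = 0 := by
        have := hβ ga
        rw [hδ, hα1, ← hl] at this
        have h2 : c * Multiplicative.toAdd (β ga) = 0 := by linarith
        exact (mul_eq_zero.1 h2).resolve_left hc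
      have hαc : Multiplicative.toAdd (α gc) = 0 := by
        rw [MonoidHom.mem_ker] at hgcK
        rw [hgcK]; rfl
      have hβc : Multiplicative.toAdd (β gc) = 1 := by
        have := hβ gc
        rw [hδ, hαc, hgc] at this
        have h2 : c * (Multiplicative.toAdd (β gc) - 1) = 0 := by linarith
        rcases mul_eq_zero.1 h2 with h3 | h3
        · exact absurd h3 hc
        · linarith
      let π : Γ →* Multiplicative (ℤ × ℤ) :=
        { toFun := fun g => Multiplicative.ofAdd
            (Multiplicative.toAdd (α g), Multiplicative.toAdd (β g))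
          map_one' := by
            rw [map_one α, map_one β]; rfl
          map_mul' := fun g h => by
            rw [← ofAdd_add, map_mul α, map_mul β, toAdd_mul, toAdd_mul]
            rfl }
      have hπ : ∀ g, Multiplicative.toAdd (π g) =
          (Multiplicative.toAdd (α g), Multiplicative.toAdd (β g)) := fun g => rfl
      refine ⟨π, (0, -a), (c, -l), ?_, ?_, ?_, ?_⟩
      · intro z
        refine ⟨ga ^ (Multiplicative.toAdd z).1 * gc ^ (Multiplicative.toAdd z).2, ?_⟩
        apply Multiplicative.toAdd.injective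
        rw [hπ, map_mul α, map_mul β, map_zpow α, map_zpow α, map_zpow β, map_zpow β, toAdd_mul,
          toAdd_mul, toAdd_zpow, toAdd_zpow, toAdd_zpow, toAdd_zpow, hα1, hβa, hαc, hβc]
        simp
      · have : dt (0, -a) (c, -l) = a * c := by simp [dt]
        rw [this]
        exact mul_ne_zero ha hc
      · refine MonoidHom.ext fun g => ?_
        apply Multiplicative.toAdd.injective
        have : Multiplicative.toAdd (phv π (0, -a) g) = dt (0, -a) (Multiplicative.toAdd (π g)) := rfl
        rw [this, hπ, hα g]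
        simp [dt]
      · refine MonoidHom.ext fun g => ?_
        apply Multiplicative.toAdd.injective
        have : Multiplicative.toAdd (phv π (c, -l) g) = dt (c, -l) (Multiplicative.toAdd (π g)) := rfl
        rw [this, hπ]
        have h1 := hβ g
        rw [hδ] at h1
        simp only [dt]
        linarith

end TN970
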