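import Pool.Agent.Helper970.TN.Defs



namespace TN970
open scoped Classical


theorem phv_lin {Γ : Type} [Group Γ] (π : Γ →* Multiplicative (ℤ × ℤ)) (v w : ℤ × ℤ) (k : ℤ) :
    phv π (k • v) = (phv π v) ^ k ∧ phv π (v + w) = phv π v * phv π w := by
  constructor
  · ext g
    show dt (k • v) (Multiplicative.toAdd (π g)) = k • dt v (Multiplicative.toAdd (π g))
    simp only [dt, Prod.smul_fst, Prod.smul_snd, smul_eq_mul]
    ring
  · ext g
    show dt (v + w) (Multiplicative.toAdd (π g)) = dt v (Multiplicative.toAdd (π g)) +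
      dt w (Multiplicative.toAdd (π g))
    simp only [dt, Prod.fst_add, Prod.snd_add]
    ring

end TN970
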