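import Pool.Agent.Helper970.TN.Defs
import Pool.Agent.Helper970.TN.P_finite_HN
import Pool.Agent.Helper970.TN.P_exists_beta
import Pool.Agent.Helper970.TN.P_hom_power
import Pool.Agent.Helper970.TN.P_subadd
import Pool.Agent.Helper970.TN.P_polytope



namespace TN970
open scoped Classical


theorem part1 {Γ : Type} [Group Γ] [Group.FG Γ] {D : Type} [DivisionRing D] (u : Γ →* Dˣ)
    (hu : Linnell u) {a b c : ℕ}
    (A : Matrix (Fin a) (Fin b) (MonoidAlgebra ℤ Γ)) (B : Matrix (Fin b) (Fin c) (MonoidAlgebra ℤ Γ))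
    (hAB : A * B = 0)
    (hex : ∀ v ∈ ZN u ⊤ (B.map (ev u)), v ∈ BN u ⊤ (A.map (ev u))) :
    ∃ P : Finset (H1R Γ), P.Nonempty ∧ ∀ φ : Γ →* Multiplicative ℤ, Function.Surjective φ →
      Module.Finite (Dc u φ.ker) (HN u φ.ker (A.map (ev u)) (B.map (ev u))) ∧
      IsGreatest {t : ℝ | ∃ x ∈ convexHull ℝ (P : Set (H1R Γ)),
        ∃ y ∈ convexHull ℝ (P : Set (H1R Γ)), t = linF φ x - linF φ y}
        (Module.finrank (Dc u φ.ker)
          (HN u φ.ker (A.map (ev u)) (B.map (ev u))) : ℝ) := by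
  obtain ⟨β, hβ1, hβ⟩ := exists_beta (fun N : Subgroup Γ => Module.finrank (Dc u N)
    (HN u N (A.map (ev u)) (B.map (ev u))))
  have hadd := subadd u hu A B hAB hex β hβ1 hβ
  have hmul : ∀ (φ : Γ →* Multiplicative ℤ) (k : ℤ), β (φ ^ k) = k.natAbs * β φ := by
    intro φ k
    by_cases h1 : φ = 1
    · rw [h1, one_zpow, hβ1, mul_zero]
    · obtain ⟨χ, j, hχ, hj⟩ := hom_power φ h1
      rw [hj, ← zpow_mul, hβ χ hχ, hβ χ hχ, Int.natAbs_mul]
      ring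
  obtain ⟨P, hP, hg⟩ := polytope β hadd hmul
  refine ⟨P, hP, fun φ hφ => ⟨finite_HN u hu A B hAB hex φ hφ, ?_⟩⟩
  have h2 := hβ φ hφ 1
  rw [zpow_one, Int.natAbs_one, one_mul] at h2
  have h3 := hg φ
  rw [h2] at h3
  exact h3

end TN970
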